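import Mathlib
import Pool.Agent.H33.G.R_seed8.W301.SS.Full
import Pool.Agent.H33.G.R_seed8.W301.SS.Avg
import Pool.Agent.H33.G.R_seed8.H357R2.SI.Common

/-! Locally constant sets along shifted primes: the deterministic part. -/

set_option autoImplicit false

namespace Pool.Agent.TH204.CP
open Finset Filter Pool.Agent.W301.SS

/-- the conditions of `subsets` hold for large sets -/
lemma conds (C : ℕ) (δ : ℝ) (hδ0 : 0 < δ) (hδ1 : δ ≤ 1 / 4) : ∀ᶠ N : ℕ in atTop,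
    ∀ A : Finset ℕ, (N : ℝ) ≤ (A.card : ℝ) * Real.log N ^ C → ∀ y : ℕ, Real.log N ^ (C + 20) ≤ y →
      (3 * (N : ℝ) ^ (1 - δ) + (2 * N / y) * (2 * Real.log N) ^ 16) * (4 * Real.log N ^ 2 / δ ^ 2) ≤
        A.card ∧ (N : ℝ) ^ (1 / 4 : ℝ) * (2 * Real.log N / δ) ≤ A.card := by
  filter_upwards [ev_L (1024 / δ + 4), ev_log (C + 2) (24 / δ ^ 2) δ hδ0,
    ev_log (C + 1) (2 / δ) (3 / 4) (by norm_num), eventually_ge_atTop 16] with
    N h3 h4 h5 hN16 A hAN y hyC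
  have hNr : (16 : ℝ) ≤ N := by exact_mod_cast hN16
  have hN0 : (0 : ℝ) < N := by linarith
  set ℓ := Real.log N with hℓ
  have hd1 : 0 < 1024 / δ := by positivity
  have hℓ4 : 4 ≤ ℓ := by linarith
  have hℓ0 : 0 < ℓ := by linarith
  have hyr : (1 : ℝ) ≤ y := (one_le_pow₀ (by linarith)).trans hyC
  have hy0 : (0 : ℝ) < y := by linarith
  have hAc : (N : ℝ) / ℓ ^ C ≤ A.card := by
    rw [div_le_iff₀ (by positivity)]; exact hAN
  constructor
  · refine le_trans ?_ hAc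
    have a1 : 3 * (N : ℝ) ^ (1 - δ) * (4 * ℓ ^ 2 / δ ^ 2) ≤ (1 / 2) * (N / ℓ ^ C) := by
      have e1 : 3 * (N : ℝ) ^ (1 - δ) * (4 * ℓ ^ 2 / δ ^ 2) =
          (1 / 2) * ((24 / δ ^ 2 * ℓ ^ (C + 2)) * (N : ℝ) ^ (1 - δ) / ℓ ^ C) := by
        rw [pow_add]; field_simp; ring
      rw [e1]
      apply mul_le_mul_of_nonneg_left _ (by norm_num)
      apply div_le_div_of_nonneg_right _ (by positivity)
      calc (24 / δ ^ 2 * ℓ ^ (C + 2)) * (N : ℝ) ^ (1 - δ) ≤ (N : ℝ) ^ δ * (N : ℝ) ^ (1 - δ) := by gcongr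
        _ = N := by rw [← Real.rpow_add hN0]; norm_num
    have a2 : (2 * N / y) * (2 * ℓ) ^ 16 * (4 * ℓ ^ 2 / δ ^ 2) ≤ (1 / 2) * (N / ℓ ^ C) := by
      have e1 : (2 * N / y) * (2 * ℓ) ^ 16 * (4 * ℓ ^ 2 / δ ^ 2) =
          (1 / 2) * (N / ℓ ^ C) * ((1048576 / δ ^ 2) * ℓ ^ (C + 18) / y) := by
        rw [pow_add]; field_simp; ring
      rw [e1]
      have e2 : (1048576 / δ ^ 2) * ℓ ^ (C + 18) / y ≤ 1 := by
        rw [div_le_one hy0]
        refine le_trans ?_ hyC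
        have e3 : ℓ ^ (C + 20) = ℓ ^ 2 * ℓ ^ (C + 18) := by rw [← pow_add]; congr 1; omega
        rw [e3]
        apply mul_le_mul_of_nonneg_right _ (by positivity)
        have e4 : 1024 / δ ≤ ℓ := by linarith
        calc 1048576 / δ ^ 2 = (1024 / δ) ^ 2 := by field_simp; norm_num
          _ ≤ ℓ ^ 2 := pow_le_pow_left₀ hd1.le e4 2
      calc _ ≤ (1 / 2) * (N / ℓ ^ C) * 1 := mul_le_mul_of_nonneg_left e2 (by positivity)
        _ = _ := by ring
    calc _ = 3 * (N : ℝ) ^ (1 - δ) * (4 * ℓ ^ 2 / δ ^ 2) +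
          (2 * N / y) * (2 * ℓ) ^ 16 * (4 * ℓ ^ 2 / δ ^ 2) := by ring
      _ ≤ _ := by linarith
  · refine le_trans ?_ hAc
    rw [le_div_iff₀ (by positivity)]
    calc (N : ℝ) ^ (1 / 4 : ℝ) * (2 * ℓ / δ) * ℓ ^ C =
          (N : ℝ) ^ (1 / 4 : ℝ) * (2 / δ * ℓ ^ (C + 1)) := by
            have e1 : ℓ ^ (C + 1) = ℓ ^ C * ℓ := pow_succ ℓ C
            rw [e1]; ring
      _ ≤ (N : ℝ) ^ (1 / 4 : ℝ) * (N : ℝ) ^ (3 / 4 : ℝ) := by gcongr
      _ = N := by rw [← Real.rpow_add hN0]; norm_num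

/-- primes in windows at the points of a small set -/
lemma subU (δ : ℝ) (hδ0 : 0 < δ) (hδ1 : δ ≤ 1 / 16) : ∀ᶠ N : ℕ in atTop,
    ∀ G : Finset ℕ, G ⊆ Icc 1 N → ∀ y : ℕ, Real.log N ^ 20 ≤ y →
      (∑ m ∈ G, (pn m y : ℝ)) * Real.log N ≤ ((4 + 16 * δ) * G.card + 2 * δ * N) * y := by
  filter_upwards [subsets δ hδ0 (by linarith), conds 0 δ hδ0 (by linarith), eventually_ge_atTop 1,
    ev_L 1] with N h1 h2 h3 h4 G hG y hy
  have hyr : (1 : ℝ) ≤ y := (one_le_pow₀ h4).trans hy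
  have hyn : 1 ≤ y := by exact_mod_cast hyr
  set A : Finset ℕ := range (N + 1) with hA
  have hAc : A.card = N + 1 := card_range _
  have hA1 : (N : ℝ) ≤ (A.card : ℝ) * Real.log N ^ 0 := by
    rw [pow_zero, mul_one, hAc]; push_cast; linarith
  obtain ⟨c1, c2⟩ := h2 A hA1 y (by simpa using hy)
  have hGe : ∀ m ∈ G, 1 ≤ m ∧ m ≤ N := fun m hm => mem_Icc.1 (hG hm)
  set G' : Finset ℕ := G.image (fun m => m - 1) with hG'
  have hinj : Set.InjOn (fun m : ℕ => m - 1) (G : Set ℕ) := by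
    intro x hx y hy hxy
    have := hGe x hx
    have := hGe y hy
    simp only at hxy
    omega
  have hG'A : G' ⊆ A := by
    intro a ha
    obtain ⟨m, hm, rfl⟩ := mem_image.1 ha
    have := hGe m hm
    rw [hA, mem_range]; omega
  have hcard : G'.card = G.card := card_image_of_injOn hinj
  have h5 := h1 A (fun a ha => by rw [hA, mem_range] at ha; omega) 1 (mem_Icc.2 ⟨le_rfl, h3⟩) y hyn
    c1 c2 G' hG'A
  have h6 : ∑ a ∈ G', (pn (a + 1) y : ℝ) = ∑ m ∈ G, (pn m y : ℝ) := by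
    rw [hG', sum_image hinj]
    apply sum_congr rfl
    intro m hm
    have := hGe m hm
    rw [Nat.sub_add_cancel this.1]
  rw [h6, hcard, hAc] at h5
  refine h5.trans ?_
  apply mul_le_mul_of_nonneg_right _ (by linarith)
  have hG0 : (0 : ℝ) ≤ G.card := Nat.cast_nonneg _
  have hN1 : (1 : ℝ) ≤ N := by exact_mod_cast h3
  have h7 : 4 / (1 - 2 * δ) ≤ 4 + 16 * δ := by
    rw [div_le_iff₀ (by linarith)]
    nlinarith
  have h8 : 4 / (1 - 2 * δ) * (G.card : ℝ) ≤ (4 + 16 * δ) * G.card :=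
    mul_le_mul_of_nonneg_right h7 hG0
  push_cast
  nlinarith

/-- few points, few primes in the windows, few bad primes -/
lemma badprimes (ε : ℝ) (hε : 0 < ε) : ∃ η : ℝ, 0 < η ∧ ∀ᶠ N : ℕ in atTop, ∀ L : ℕ,
    Real.log N ^ 21 ≤ L → ∀ E : Finset ℤ, (E.card : ℝ) ≤ η * N → ∀ v : ℤ → ℝ, (∀ y, 0 ≤ v y) →
    ∀ m : ℤ → ℕ, Set.InjOn m (E : Set ℤ) → (∀ n ∈ E, m n ∈ Icc 1 (4 * N)) →
    (∀ n ∈ E, ∑ y ∈ Icc (n + L) (n + 2 * L), v y ≤ pn (m n) (L + 1)) →
    ∀ B : Finset ℤ, (∀ y ∈ B, ∀ n ∈ Icc (y - 2 * L) (y - L), n ∈ E) →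
      (∑ y ∈ B, v y) * Real.log N ≤ ε * N := by
  set δ : ℝ := min (ε / 32) (1 / 16) with hδ
  have hδ0 : 0 < δ := lt_min (by positivity) (by norm_num)
  have hδ1 : δ ≤ 1 / 16 := min_le_right _ _
  have hδ2 : δ ≤ ε / 32 := min_le_left _ _
  refine ⟨ε / 16, by positivity, ?_⟩
  have ht : Tendsto (fun N : ℕ => 4 * N) atTop atTop :=
    tendsto_id.const_mul_atTop' (by norm_num)
  filter_upwards [ht.eventually (subU δ hδ0 hδ1), eventually_ge_atTop 1, ev_L 1,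
    ev_L (2 ^ 20)] with N h1 h2 h3 h3'
    L hL E hE v hv m hm1 hm2 hw B hB
  have hN1 : (1 : ℝ) ≤ N := by exact_mod_cast h2
  set ℓ := Real.log N with hℓ
  have hℓ4 : Real.log ((4 * N : ℕ) : ℝ) ≤ 2 * ℓ := by
    push_cast
    rw [Real.log_mul (by norm_num) (by linarith)]
    have : Real.log 4 ≤ 2 := by
      have := Pool.Agent.W301.SS.log4
      exact this
    have h4 : (2 : ℝ) ≤ ℓ := by linarith [show (2 : ℝ) ≤ 2 ^ 20 by norm_num]
    linarith
  have hℓ5 : ℓ ≤ Real.log ((4 * N : ℕ) : ℝ) := by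
    apply Real.log_le_log (by linarith)
    push_cast; linarith
  have hL20 : Real.log ((4 * N : ℕ) : ℝ) ^ 20 ≤ ((L + 1 : ℕ) : ℝ) := by
    calc Real.log ((4 * N : ℕ) : ℝ) ^ 20 ≤ (2 * ℓ) ^ 20 := pow_le_pow_left₀ (by linarith) hℓ4 20
      _ = 2 ^ 20 * ℓ ^ 20 := by ring
      _ ≤ ℓ * ℓ ^ 20 := by gcongr
      _ = ℓ ^ 21 := by ring
      _ ≤ L := hL
      _ ≤ _ := by push_cast; linarith
  set G : Finset ℕ := E.image m with hG
  have hGsub : G ⊆ Icc 1 (4 * N) := by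
    intro a ha
    obtain ⟨n, hn, rfl⟩ := mem_image.1 ha
    exact hm2 n hn
  have hGc : G.card = E.card := card_image_of_injOn hm1
  have h4 := h1 G hGsub (L + 1) hL20
  have h5 : ∑ a ∈ G, (pn a (L + 1) : ℝ) = ∑ n ∈ E, (pn (m n) (L + 1) : ℝ) := by
    rw [hG, sum_image hm1]
  have h6 : ((L : ℝ) + 1) * ∑ y ∈ B, v y ≤ ∑ n ∈ E, ∑ y ∈ Icc (n + L) (n + 2 * L), v y := by
    have e1 : ∀ n ∈ E, ∑ y ∈ B, (if n ∈ Icc (y - 2 * (L : ℤ)) (y - L) then v y else 0) ≤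
        ∑ y ∈ Icc (n + (L : ℤ)) (n + 2 * L), v y := by
      intro n _
      rw [← sum_filter]
      apply sum_le_sum_of_subset_of_nonneg
      · intro y hy
        rw [mem_filter, mem_Icc] at hy
        rw [mem_Icc]; omega
      · intro y _ _; exact hv y
    refine le_trans ?_ (sum_le_sum e1)
    rw [sum_comm, mul_sum]
    apply sum_le_sum
    intro y hy
    rw [← sum_filter]
    have e2 : Icc (y - 2 * (L : ℤ)) (y - L) ⊆ E.filter (fun n => n ∈ Icc (y - 2 * (L : ℤ)) (y - L)) := by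
      intro n hn
      rw [mem_filter]
      exact ⟨hB y hy n hn, hn⟩
    have e3 := card_le_card e2
    rw [Int.card_Icc] at e3
    rw [sum_const, nsmul_eq_mul]
    apply mul_le_mul_of_nonneg_right _ (hv y)
    have e4 : (y - (L : ℤ) + 1 - (y - 2 * L)).toNat = L + 1 := by omega
    rw [e4] at e3
    exact_mod_cast e3
  have h7 : ∑ n ∈ E, ∑ y ∈ Icc (n + (L : ℤ)) (n + 2 * L), v y ≤ ∑ n ∈ E, (pn (m n) (L + 1) : ℝ) :=
    sum_le_sum hw
  have hL1 : (0 : ℝ) < (L : ℝ) + 1 := by positivity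
  have hS0 : 0 ≤ ∑ y ∈ B, v y := sum_nonneg fun y _ => hv y
  have h8 : ((L : ℝ) + 1) * ((∑ y ∈ B, v y) * ℓ) ≤ ((L : ℝ) + 1) * (ε * N) := by
    calc ((L : ℝ) + 1) * ((∑ y ∈ B, v y) * ℓ) = (((L : ℝ) + 1) * (∑ y ∈ B, v y)) * ℓ := by ring
      _ ≤ (∑ a ∈ G, (pn a (L + 1) : ℝ)) * Real.log ((4 * N : ℕ) : ℝ) := by
          apply mul_le_mul _ hℓ5 (by linarith) (sum_nonneg fun _ _ => Nat.cast_nonneg _)
          rw [h5]; exact h6.trans h7
      _ ≤ ((4 + 16 * δ) * G.card + 2 * δ * (4 * N : ℕ)) * (L + 1 : ℕ) := h4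
      _ ≤ (ε * N) * ((L : ℝ) + 1) := by
          push_cast
          apply mul_le_mul_of_nonneg_right _ hL1.le
          rw [hGc]
          have hE0 : (0 : ℝ) ≤ E.card := Nat.cast_nonneg _
          have b1 : (4 + 16 * δ) * (E.card : ℝ) ≤ 5 * (ε / 16 * N) := by
            apply mul_le_mul (by linarith) hE hE0 (by norm_num)
          have b2 : 2 * δ * (4 * (N : ℝ)) ≤ 8 * (ε / 32) * N := by nlinarith
          nlinarith
      _ = _ := by ring
  exact le_of_mul_le_mul_left h8 hL1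

/-- moving a function by `h` -/
lemma transfer (f v : ℤ → ℝ) (hf : ∀ x, 0 ≤ f x ∧ f x ≤ 1) (hv : ∀ x, 0 ≤ v x ∧ v x ≤ 1) (N L : ℕ)
    (h : ℤ) (hh : |h| ≤ L) (B : Finset ℤ)
    (hB : ∀ y ∈ Icc (2 * (L : ℤ) + 1) (N - 2 * L), y ∉ B → f (y - h) = f y) :
    |∑ x ∈ Icc (1 : ℤ) N, f x * v (x + h) - ∑ x ∈ Icc (1 : ℤ) N, f x * v x| ≤
      ∑ y ∈ B.filter (fun y => y ∈ Icc (2 * (L : ℤ) + 1) (N - 2 * L)), v y + 6 * L := by
  set U : Finset ℤ := Icc (1 - (L : ℤ)) (N + L) with hU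
  set I : Finset ℤ := Icc (2 * (L : ℤ) + 1) (N - 2 * L) with hI
  have hh' := abs_le.1 hh
  have e1 : ∑ x ∈ Icc (1 : ℤ) N, f x * v (x + h) =
      ∑ y ∈ U, (if 1 + h ≤ y ∧ y ≤ N + h then f (y - h) * v y else 0) := by
    rw [← sum_filter]
    apply sum_bij (fun x _ => x + h)
    · intro x hx
      rw [mem_Icc] at hx
      rw [mem_filter, hU, mem_Icc]; omega
    · intro x _ y _ hxy; omega
    · intro y hy
      rw [mem_filter, hU, mem_Icc] at hy
      exact ⟨y - h, by rw [mem_Icc]; omega, by ring⟩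
    · intro x _
      rw [add_sub_cancel_right]
  have e2 : ∑ x ∈ Icc (1 : ℤ) N, f x * v x =
      ∑ y ∈ U, (if 1 ≤ y ∧ y ≤ N then f y * v y else 0) := by
    rw [← sum_filter]
    apply sum_congr _ (fun _ _ => rfl)
    ext y
    rw [mem_filter, mem_Icc, hU, mem_Icc]; omega
  rw [e1, e2, ← sum_sub_distrib]
  refine (abs_sum_le_sum_abs _ _).trans ?_
  have hpt : ∀ y ∈ U, |(if 1 + h ≤ y ∧ y ≤ N + h then f (y - h) * v y else 0) -
      (if 1 ≤ y ∧ y ≤ N then f y * v y else 0)| ≤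
      (if y ∈ B ∧ y ∈ I then v y else 0) + (if y ∉ I then 1 else 0) := by
    intro y _
    have f1 := hf (y - h)
    have f2 := hf y
    have v1 := hv y
    have p1 : 0 ≤ f (y - h) * v y := mul_nonneg f1.1 v1.1
    have p2 : f (y - h) * v y ≤ v y := mul_le_of_le_one_left v1.1 f1.2
    have p3 : 0 ≤ f y * v y := mul_nonneg f2.1 v1.1
    have p4 : f y * v y ≤ v y := mul_le_of_le_one_left v1.1 f2.2
    by_cases hyI : y ∈ I
    · have hyI' := hyI
      rw [hI, mem_Icc] at hyI'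
      rw [if_pos (by omega), if_pos (by omega)]
      by_cases hyB : y ∈ B
      · rw [if_pos ⟨hyB, hyI⟩, if_neg (not_not.2 hyI), abs_le]
        constructor <;> linarith
      · rw [hB y hyI hyB, sub_self, abs_zero]
        split_ifs <;> simp_all
    · rw [if_neg (fun h' : y ∈ B ∧ y ∈ I => hyI h'.2), if_pos hyI, zero_add, abs_le]
      constructor
      · split_ifs <;> linarith
      · split_ifs <;> linarith
  refine (sum_le_sum hpt).trans ?_
  rw [sum_add_distrib]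
  apply add_le_add
  · rw [← sum_filter]
    apply sum_le_sum_of_subset_of_nonneg
    · intro y hy
      rw [mem_filter] at hy ⊢
      exact hy.2
    · intro y _ _; exact (hv y).1
  · rw [← sum_filter, sum_const, nsmul_eq_mul, mul_one]
    have hcard : (U.filter (fun y => y ∉ I)).card ≤ 6 * L := by
      have h1 : U.filter (fun y => y ∉ I) ⊆ Icc (1 - (L : ℤ)) (2 * L) ∪ Icc (N - 2 * (L : ℤ) + 1) (N + L) := by
        intro y hy
        rw [mem_filter, hU, hI, mem_Icc, mem_Icc] at hy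
        rw [mem_union, mem_Icc, mem_Icc]; omega
      refine (card_le_card h1).trans ((card_union_le _ _).trans ?_)
      rw [Int.card_Icc, Int.card_Icc]; omega
    exact_mod_cast hcard

/-- `π(m) log N = m + o(N)` uniformly for `m ≤ 4 N` -/
lemma pi_unif (ε : ℝ) (hε : 0 < ε) : ∀ᶠ N : ℕ in atTop, ∀ m : ℕ, m ≤ 4 * N →
    |(Nat.primeCounting m : ℝ) * Real.log N - m| ≤ ε * N := by
  set δ := min (ε / 16) (1 / 2) with hδ
  have hδ0 : 0 < δ := lt_min (by positivity) (by norm_num)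
  have hδ1 : δ ≤ 1 / 2 := min_le_right _ _
  have hδ2 : δ ≤ ε / 16 := min_le_left _ _
  obtain ⟨X₀, hX0, hX⟩ := Pool.Agent.H357R2.SI.pnt δ hδ0
  filter_upwards [ev_L (2 / δ + 4), ev_log 1 (2 / ε) δ hδ0, ev_pow X₀ (1 / 2) (by norm_num),
    eventually_ge_atTop 16] with N h1 h2 h4 hN16 m hm
  have hNr : (16 : ℝ) ≤ N := by exact_mod_cast hN16
  have hN0 : (0 : ℝ) < N := by linarith
  have hN1 : (1 : ℝ) ≤ N := by linarith
  have hm4 : (m : ℝ) ≤ 4 * N := by exact_mod_cast hm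
  set ℓ := Real.log N with hℓ
  have hδi : 0 < 2 / δ := by positivity
  have hℓ0 : 0 < ℓ := by linarith
  have hℓ4 : 4 ≤ ℓ := by linarith
  have hm0 : (0 : ℝ) ≤ m := Nat.cast_nonneg _
  rw [pow_one] at h2
  rcases le_or_gt ((m : ℝ) * ℓ) (ε / 2 * N) with hc | hc
  · have h5 : (Nat.primeCounting m : ℝ) ≤ m := by
      exact_mod_cast (by
        rw [pi_card]
        refine (card_filter_le _ _).trans ?_
        rw [Nat.card_Ioc]; omega : Nat.primeCounting m ≤ m)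
    have h6 : (Nat.primeCounting m : ℝ) * ℓ ≤ m * ℓ := mul_le_mul_of_nonneg_right h5 hℓ0.le
    have h7 : (0 : ℝ) ≤ (Nat.primeCounting m : ℝ) * ℓ := by positivity
    have h8 : (m : ℝ) ≤ m * ℓ := le_mul_of_one_le_right hm0 (by linarith)
    rw [abs_le]
    constructor <;> nlinarith
  · have hmN : (N : ℝ) ^ (1 - δ) ≤ m := by
      have e1 : (N : ℝ) ^ (1 - δ) * (N : ℝ) ^ δ = N := by
        rw [← Real.rpow_add hN0]; norm_num
      have e2 : 0 < (N : ℝ) ^ (1 - δ) := by positivity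
      have e3 : (N : ℝ) ^ (1 - δ) * (2 / ε * ℓ) ≤ N := by
        calc _ ≤ (N : ℝ) ^ (1 - δ) * (N : ℝ) ^ δ := mul_le_mul_of_nonneg_left h2 e2.le
          _ = N := e1
      have e4 : (N : ℝ) ^ (1 - δ) * ℓ ≤ ε / 2 * N := by
        have : (N : ℝ) ^ (1 - δ) * ℓ = ε / 2 * ((N : ℝ) ^ (1 - δ) * (2 / ε * ℓ)) := by
          field_simp
        rw [this]
        apply mul_le_mul_of_nonneg_left e3 (by positivity)
      have e5 : (N : ℝ) ^ (1 - δ) * ℓ ≤ m * ℓ := e4.trans hc.le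
      exact le_of_mul_le_mul_right e5 hℓ0
    have hmX : X₀ ≤ m := by
      have : (X₀ : ℝ) ≤ m := by
        refine h4.trans (le_trans ?_ hmN)
        exact Real.rpow_le_rpow_of_exponent_le hN1 (by linarith)
      exact_mod_cast this
    obtain ⟨g1, g2⟩ := hX m hmX
    have hmpos : (0 : ℝ) < m := lt_of_lt_of_le (by positivity) hmN
    have hlm1 : (1 - δ) * ℓ ≤ Real.log m := by
      have := Real.log_le_log (by positivity) hmN
      rwa [Real.log_rpow hN0] at this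
    have hlm2 : Real.log m ≤ (1 + δ) * ℓ := by
      have h5 := Real.log_le_log hmpos hm4
      rw [Real.log_mul (by norm_num) (by linarith)] at h5
      have h6 := Pool.Agent.W301.SS.log4
      have h7 : 2 ≤ δ * ℓ := by
        have : 2 / δ ≤ ℓ := by linarith
        rw [div_le_iff₀ hδ0] at this
        linarith
      linarith
    have hlm0 : 0 < Real.log m := lt_of_lt_of_le (mul_pos (by linarith) hℓ0) hlm1
    rw [div_le_iff₀ hlm0] at g1
    rw [le_div_iff₀ hlm0] at g2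
    have hπ : (0 : ℝ) ≤ Nat.primeCounting m := Nat.cast_nonneg _
    set p : ℝ := (Nat.primeCounting m : ℝ) with hp
    have k1 : (1 - δ) * (p * ℓ) ≤ (1 + δ) * m := by
      calc (1 - δ) * (p * ℓ) = p * ((1 - δ) * ℓ) := by ring
        _ ≤ p * Real.log m := mul_le_mul_of_nonneg_left hlm1 hπ
        _ ≤ _ := g2
    have k2 : (1 - δ) * m ≤ (1 + δ) * (p * ℓ) := by
      calc (1 - δ) * (m : ℝ) ≤ p * Real.log m := g1
        _ ≤ p * ((1 + δ) * ℓ) := mul_le_mul_of_nonneg_left hlm2 hπ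
        _ = _ := by ring
    have hmε : 4 * δ * m ≤ ε * N := by
      calc 4 * δ * m ≤ 4 * (ε / 16) * (4 * N) := by gcongr
        _ = ε * N := by ring
    rw [abs_le]
    constructor
    · have : (1 - 4 * δ) * m ≤ p * ℓ := by
        have h5 : (1 + δ) * ((1 - 4 * δ) * m) ≤ (1 + δ) * (p * ℓ) := by
          refine le_trans ?_ k2
          rw [← mul_assoc]
          apply mul_le_mul_of_nonneg_right _ hm0
          nlinarith
        exact le_of_mul_le_mul_left h5 (by linarith)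
      linarith
    · have : p * ℓ ≤ (1 + 4 * δ) * m := by
        have h5 : (1 - δ) * (p * ℓ) ≤ (1 - δ) * ((1 + 4 * δ) * m) := by
          refine k1.trans ?_
          rw [← mul_assoc]
          apply mul_le_mul_of_nonneg_right _ hm0
          nlinarith
        exact le_of_mul_le_mul_left h5 (by linarith)
      linarith

end Pool.Agent.TH204.CP
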