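import Mathlib
import Pool.Agent.H33.G.R_seed8.TH204.CP.Core

/-! Locally constant sets along primes `x + b` and `n - x`: the main estimates. -/

set_option autoImplicit false

namespace Pool.Agent.TH204.CP
open Finset Filter Pool.Agent.W301.SS

open Classical in
/-- the indicator function of `P` -/
noncomputable def ind (P : ℤ → Prop) (x : ℤ) : ℝ := if P x then 1 else 0

/-- the indicator function of the primes -/
noncomputable def pv (z : ℤ) : ℝ := if z.toNat.Prime then 1 else 0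

lemma ind_mem (P : ℤ → Prop) (x : ℤ) : 0 ≤ ind P x ∧ ind P x ≤ 1 := by
  unfold ind; split_ifs <;> norm_num

lemma pv_mem (x : ℤ) : 0 ≤ pv x ∧ pv x ≤ 1 := by
  unfold pv; split_ifs <;> norm_num

lemma ind_congr {P : ℤ → Prop} {x y : ℤ} (h : P x ↔ P y) : ind P x = ind P y := by
  unfold ind
  by_cases hx : P x
  · rw [if_pos hx, if_pos (h.1 hx)]
  · rw [if_neg hx, if_neg (fun h' => hx (h.2 h'))]

/-- the number of the `x ≤ N` with `P x` -/
noncomputable def cnt (P : ℤ → Prop) (N : ℕ) : ℝ := ∑ x ∈ Icc (1 : ℤ) N, ind P x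

/-- the number of the `x ≤ N` with `P x` and `x + b` prime -/
noncomputable def QD (P : ℤ → Prop) (b : ℤ) (N : ℕ) : ℝ := ∑ x ∈ Icc (1 : ℤ) N, ind P x * pv (x + b)

/-- the number of the `x ≤ N` with `P x` and `n - x` prime -/
noncomputable def QS (P : ℤ → Prop) (n : ℤ) (N : ℕ) : ℝ := ∑ x ∈ Icc (1 : ℤ) N, ind P x * pv (n - x)

/-- `P` is constant on the intervals `[n, n + 3 L]`, `n ≤ N`, `n` not in `E` -/
def LocE (P : ℤ → Prop) (E : Finset ℤ) (N L : ℕ) : Prop :=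
  ∀ n ∈ Icc (1 : ℤ) N, n ∉ E → ∀ h ∈ Icc (0 : ℤ) (3 * L), P (n + h) ↔ P n

lemma window (m L : ℕ) (z : ℤ) (hz : z = m + 1) : ∑ y ∈ Icc z (z + L), pv y = pn m (L + 1) := by
  rw [pn_eq]
  symm
  apply sum_bij (fun (h : ℕ) _ => (m : ℤ) + h)
  · intro h hh
    rw [mem_Ioc] at hh
    rw [mem_Icc]; omega
  · intro a _ b _ hab; omega
  · intro y hy
    rw [mem_Icc] at hy
    exact ⟨(y - m).toNat, by rw [mem_Ioc]; omega, by omega⟩
  · intro h _
    unfold pv
    have : ((m : ℤ) + h).toNat = m + h := by omega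
    rw [this]

lemma pn_pv (m y : ℕ) : (pn m y : ℝ) = ∑ h ∈ Ioc 0 y, pv ((m : ℤ) + h) := by
  rw [pn_eq]
  apply sum_congr rfl
  intro h _
  unfold pv
  have : ((m : ℤ) + h).toNat = m + h := by omega
  rw [this]

open Classical in
/-- the set `{x ≤ N : P x}` as a set of naturals -/
noncomputable def AA (P : ℤ → Prop) (N : ℕ) : Finset ℕ := (Icc 1 N).filter (fun a : ℕ => P a)

lemma sum_AA (P : ℤ → Prop) (N : ℕ) (g : ℤ → ℝ) :
    ∑ a ∈ AA P N, g a = ∑ x ∈ Icc (1 : ℤ) N, ind P x * g x := by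
  classical
  unfold AA
  rw [sum_filter]
  apply sum_bij (fun (a : ℕ) _ => (a : ℤ))
  · intro a ha
    rw [mem_Icc] at ha ⊢; omega
  · intro a _ b _ hab; omega
  · intro y hy
    rw [mem_Icc] at hy
    exact ⟨y.toNat, by rw [mem_Icc]; omega, by omega⟩
  · intro a _
    unfold ind
    split_ifs <;> simp

lemma card_AA (P : ℤ → Prop) (N : ℕ) : ((AA P N).card : ℝ) = cnt P N := by
  have h := sum_AA P N (fun _ => 1)
  rw [sum_const, nsmul_eq_mul, mul_one] at h
  rw [h]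
  unfold cnt
  simp

lemma AA_le {P : ℤ → Prop} {N : ℕ} {a : ℕ} (ha : a ∈ AA P N) : 1 ≤ a ∧ a ≤ N := by
  classical
  unfold AA at ha
  rw [mem_filter, mem_Icc] at ha
  exact ha.1

/-- the bad points -/
lemma bad_prop {P : ℤ → Prop} {E : Finset ℤ} {N L : ℕ} (hE : LocE P E N L) {y : ℤ}
    (hy : y ∈ Icc (2 * (L : ℤ) + 1) (N - 2 * L)) {j : ℤ} (hj : |j| ≤ L) (hne : ¬ (P (y + j) ↔ P y)) :
    ∀ n ∈ Icc (y - 2 * L) (y - L), n ∈ E.filter (fun n => n ∈ Icc (1 : ℤ) (N - 3 * L)) := by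
  intro n hn
  rw [mem_Icc] at hn hy
  have hj' := abs_le.1 hj
  rw [mem_filter, mem_Icc]
  refine ⟨?_, by omega, by omega⟩
  by_contra hnE
  have h1 := hE n (by rw [mem_Icc]; omega) hnE
  have h2 := h1 (y + j - n) (by rw [mem_Icc]; omega)
  have h3 := h1 (y - n) (by rw [mem_Icc]; omega)
  rw [show n + (y + j - n) = y + j by ring] at h2
  rw [show n + (y - n) = y by ring] at h3
  exact hne (h2.trans h3.symm)

open Classical in
/-- the points around which `P` is not constant -/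
noncomputable def BB (P : ℤ → Prop) (N L : ℕ) : Finset ℤ :=
  (Icc (2 * (L : ℤ) + 1) (N - 2 * L)).filter (fun y => ∃ j : ℤ, |j| ≤ L ∧ ¬ (P (y + j) ↔ P y))

lemma BB_prop {P : ℤ → Prop} {E : Finset ℤ} {N L : ℕ} (hE : LocE P E N L) :
    ∀ y ∈ BB P N L, ∀ n ∈ Icc (y - 2 * (L : ℤ)) (y - L),
      n ∈ E.filter (fun n => n ∈ Icc (1 : ℤ) (N - 3 * L)) := by
  classical
  intro y hy n hn
  unfold BB at hy
  rw [mem_filter] at hy
  obtain ⟨hyI, j, hj, hne⟩ := hy
  exact bad_prop hE hyI hj hne n hn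

lemma cnt_le (P : ℤ → Prop) (N : ℕ) : cnt P N ≤ N := by
  classical
  rw [← card_AA]
  have : (AA P N).card ≤ N := by
    unfold AA
    refine (card_filter_le _ _).trans ?_
    rw [Nat.card_Icc]; omega
  exact_mod_cast this

lemma cnt_nonneg (P : ℤ → Prop) (N : ℕ) : 0 ≤ cnt P N :=
  sum_nonneg fun x _ => (ind_mem P x).1

lemma mainstep {ε : ℝ} (hε : 0 < ε) {ε' ℓ : ℝ} (he2 : ε' ≤ ε / 4) {N L : ℕ}
    (hℓ0 : 0 < ℓ) (hL : 1 ≤ L) (hLη : (L : ℝ) * ℓ ≤ ε / 32 * N) (P : ℤ → Prop) (v : ℤ → ℝ)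
    (hv : ∀ y, 0 ≤ v y ∧ v y ≤ 1) (hbad : (∑ y ∈ BB P N L, v y) * ℓ ≤ ε' * N)
    (σ : ℤ) (hσ : σ = 1 ∨ σ = -1) (S : ℝ)
    (hS : S = ∑ h ∈ Ioc 0 L, ∑ x ∈ Icc (1 : ℤ) N, ind P x * v (x + σ * (h : ℤ)))
    (g1 : |S * ℓ - cnt P N * L| ≤ ε' * (cnt P N * L)) :
    |(∑ x ∈ Icc (1 : ℤ) N, ind P x * v x) * ℓ - cnt P N| ≤ ε * N := by
  classical
  have hL0 : (0 : ℝ) < L := by exact_mod_cast (by omega : 0 < L)
  set Q : ℝ := ∑ x ∈ Icc (1 : ℤ) N, ind P x * v x with hQ
  have htr : ∀ h ∈ Ioc 0 L, |∑ x ∈ Icc (1 : ℤ) N, ind P x * v (x + σ * (h : ℤ)) - Q| ≤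
      ∑ y ∈ BB P N L, v y + 6 * L := by
    intro h hh
    rw [mem_Ioc] at hh
    have habs : |σ * (h : ℤ)| ≤ L := by
      rw [abs_le]
      rcases hσ with rfl | rfl <;> constructor <;> omega
    have h3 := transfer (ind P) v (ind_mem P) hv N L (σ * h) habs (BB P N L) (by
      intro y hy hyB
      apply ind_congr
      by_contra hne
      apply hyB
      unfold BB
      rw [mem_filter]
      refine ⟨hy, -(σ * h), by rwa [abs_neg], ?_⟩
      rwa [← sub_eq_add_neg])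
    refine h3.trans ?_
    gcongr
    · intro y _ _; exact (hv y).1
    · exact filter_subset _ _
  have hdiff : |S - L * Q| ≤ L * (∑ y ∈ BB P N L, v y + 6 * L) := by
    have e1 : S - L * Q =
        ∑ h ∈ Ioc 0 L, (∑ x ∈ Icc (1 : ℤ) N, ind P x * v (x + σ * (h : ℤ)) - Q) := by
      rw [hS, sum_sub_distrib, sum_const, Nat.card_Ioc, nsmul_eq_mul]; norm_num
    rw [e1]
    refine (abs_sum_le_sum_abs _ _).trans ((sum_le_sum htr).trans ?_)
    rw [sum_const, Nat.card_Ioc, nsmul_eq_mul]; norm_num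
  have hd2 : |S * ℓ - L * Q * ℓ| ≤ L * (ε' * N + 6 * (ε / 32 * N)) := by
    rw [← sub_mul, abs_mul, abs_of_pos hℓ0]
    calc |S - L * Q| * ℓ ≤ L * (∑ y ∈ BB P N L, v y + 6 * L) * ℓ :=
          mul_le_mul_of_nonneg_right hdiff hℓ0.le
      _ = L * ((∑ y ∈ BB P N L, v y) * ℓ + 6 * (L * ℓ)) := by ring
      _ ≤ _ := by gcongr
  have hfin : L * |Q * ℓ - cnt P N| ≤ L * (ε * N) := by
    have e1 : L * |Q * ℓ - cnt P N| = |(L : ℝ) * Q * ℓ - cnt P N * L| := by
      have : (L : ℝ) * Q * ℓ - cnt P N * L = L * (Q * ℓ - cnt P N) := by ring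
      rw [this, abs_mul, abs_of_pos hL0]
    rw [e1]
    have e2 : |(L : ℝ) * Q * ℓ - cnt P N * L| ≤
        |S * ℓ - L * Q * ℓ| + |S * ℓ - cnt P N * L| := by
      have e3 : (L : ℝ) * Q * ℓ - cnt P N * L =
        -(S * ℓ - L * Q * ℓ) + (S * ℓ - cnt P N * L) := by ring
      rw [e3]
      refine (abs_add_le _ _).trans ?_
      rw [abs_neg]
    refine e2.trans ?_
    have hN0 : (0 : ℝ) ≤ N := Nat.cast_nonneg _
    have e4 : ε' * (cnt P N * L) ≤ ε / 4 * (N * L) := by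
      have h0 := cnt_nonneg P N
      have h1 := cnt_le P N
      calc ε' * (cnt P N * L) ≤ ε / 4 * (cnt P N * L) := mul_le_mul_of_nonneg_right he2 (by positivity)
        _ ≤ _ := by gcongr
    have e5 : ε' * (N : ℝ) ≤ ε / 4 * N := mul_le_mul_of_nonneg_right he2 hN0
    have e6 : L * (ε' * N + 6 * (ε / 32 * N)) ≤ L * (ε / 4 * N + 6 * (ε / 32 * N)) := by gcongr
    have e7 : 0 ≤ (L : ℝ) * (ε * N) := by positivity
    nlinarith
  exact le_of_mul_le_mul_left hfin hL0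

theorem core1 (C : ℕ) (ε : ℝ) (hε : 0 < ε) : ∃ (K : ℕ) (η : ℝ), 0 < η ∧ ∀ᶠ N : ℕ in atTop,
    ∀ L : ℕ, Real.log N ^ K ≤ L → (L : ℝ) * Real.log N ≤ η * N → ∀ (P : ℤ → Prop) (E : Finset ℤ),
    (E.card : ℝ) ≤ η * N → LocE P E N L → (N : ℝ) ≤ 3 * cnt P N →
    (∃ X : Finset ℕ, X ⊆ Icc 1 N ∧ (X.card : ℝ) * Real.log N ^ C ≤ N ∧
      ∀ b ∈ Icc 1 N, b ∉ X → |QD P b N * Real.log N - cnt P N| ≤ ε * N) ∧
    (∃ X : Finset ℕ, X ⊆ Icc 1 N ∧ (X.card : ℝ) * Real.log N ^ C ≤ N ∧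
      ∀ b ∈ Icc 1 N, b ∉ X → |QS P ((N : ℤ) + b) N * Real.log N - cnt P N| ≤ ε * N) := by
  classical
  set ε' : ℝ := min (ε / 4) (1 / 4) with hε'
  have he0 : 0 < ε' := lt_min (by positivity) (by norm_num)
  have he1 : ε' ≤ 1 / 4 := min_le_right _ _
  have he2 : ε' ≤ ε / 4 := min_le_left _ _
  obtain ⟨K, hK⟩ := polyFull (C + 1) ε' he0 he1
  obtain ⟨η, hη0, hη⟩ := badprimes ε' he0
  refine ⟨max K 21, min η (min (ε / 32) 1), lt_min hη0 (lt_min (by positivity) one_pos), ?_⟩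
  filter_upwards [hK, hη, ev_L 3, eventually_ge_atTop 16] with N h1 h2 hℓ3 hN16 L hL1 hL2 P E hE1 hE2 hcnt
  have hNr : (16 : ℝ) ≤ N := by exact_mod_cast hN16
  have hN0 : (0 : ℝ) < N := by linarith
  set ℓ := Real.log N with hℓ
  have hℓ0 : 0 < ℓ := by linarith
  have hℓ1 : 1 ≤ ℓ := by linarith
  have hLK : ℓ ^ K ≤ L := (pow_le_pow_right₀ hℓ1 (le_max_left _ _)).trans hL1
  have hL21 : ℓ ^ 21 ≤ L := (pow_le_pow_right₀ hℓ1 (le_max_right _ _)).trans hL1
  have hLr : (2 : ℝ) < L := by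
    refine lt_of_lt_of_le (by linarith : (2 : ℝ) < ℓ) (le_trans ?_ hL21)
    exact le_self_pow₀ hℓ1 (by norm_num)
  have hLn : 2 < L := by exact_mod_cast hLr
  have hL0 : (0 : ℝ) < L := by linarith
  have hEη : (E.card : ℝ) ≤ η * N := hE1.trans (mul_le_mul_of_nonneg_right (min_le_left _ _) hN0.le)
  have hLη : (L : ℝ) * ℓ ≤ ε / 32 * N := hL2.trans (mul_le_mul_of_nonneg_right
    ((min_le_right _ _).trans (min_le_left _ _)) hN0.le)
  have hLN : L ≤ N := by
    have h3 : (L : ℝ) * ℓ ≤ 1 * N := hL2.trans (mul_le_mul_of_nonneg_right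
      ((min_le_right _ _).trans (min_le_right _ _)) hN0.le)
    have h4 : (L : ℝ) ≤ L * ℓ := le_mul_of_one_le_right hL0.le hℓ1
    exact_mod_cast (by linarith : (L : ℝ) ≤ N)
  have c0 : 0 ≤ cnt P N := cnt_nonneg P N
  have hlow : (N : ℝ) ≤ cnt P N * ℓ ^ (C + 1) := by
    calc (N : ℝ) ≤ 3 * cnt P N := hcnt
      _ ≤ ℓ * cnt P N := mul_le_mul_of_nonneg_right hℓ3 c0
      _ ≤ ℓ ^ (C + 1) * cnt P N := by
          apply mul_le_mul_of_nonneg_right _ c0
          calc ℓ = ℓ ^ 1 := (pow_one ℓ).symm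
            _ ≤ ℓ ^ (C + 1) := pow_le_pow_right₀ hℓ1 (by omega)
      _ = _ := by ring
  have hXc : ∀ X : Finset ℕ, (X.card : ℝ) * ℓ ^ (C + 1) ≤ N → (X.card : ℝ) * ℓ ^ C ≤ N := by
    intro X hX
    refine le_trans ?_ hX
    apply mul_le_mul_of_nonneg_left _ (Nat.cast_nonneg _)
    exact pow_le_pow_right₀ hℓ1 (by omega)
  have hEc : ((E.filter (fun n => n ∈ Icc (1 : ℤ) (N - 3 * L))).card : ℝ) ≤ η * N := by
    refine le_trans ?_ hEη
    exact_mod_cast card_filter_le _ _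
  constructor
  · -- differences
    have hAc := card_AA P N
    obtain ⟨X, hX1, hX2, hX3⟩ := h1 (AA P N) (fun a ha => (AA_le ha).2) (by rw [hAc]; exact hlow)
    refine ⟨X, hX1, hXc X hX2, fun b hb hbX => ?_⟩
    obtain ⟨g1, _⟩ := hX3 b hb hbX L hLK hLN
    rw [mem_Icc] at hb
    have hbad : (∑ y ∈ BB P N L, pv (y + b)) * ℓ ≤ ε' * N := by
      refine h2 L hL21 (E.filter (fun n => n ∈ Icc (1 : ℤ) (N - 3 * L))) hEc (fun y => pv (y + b))
        (fun y => (pv_mem _).1) (fun n => (n + L - 1 + b).toNat) ?_ ?_ ?_ _ (BB_prop hE2)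
      · intro x hx y hy hxy
        rw [mem_coe, mem_filter, mem_Icc] at hx hy
        simp only at hxy
        omega
      · intro n hn
        rw [mem_filter, mem_Icc] at hn
        rw [mem_Icc]; omega
      · intro n hn
        rw [mem_filter, mem_Icc] at hn
        have e1 := window (n + L - 1 + b).toNat L (n + L + b) (by omega)
        rw [← e1]
        apply le_of_eq
        apply sum_bij (fun (y : ℤ) _ => y + (b : ℤ))
        · intro y hy
          rw [mem_Icc] at hy ⊢; omega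
        · intro x _ y _ hxy; omega
        · intro y hy
          rw [mem_Icc] at hy
          exact ⟨y - b, by rw [mem_Icc]; omega, by ring⟩
        · intro y _; rfl
    have hcs : cs (AA P N) b L =
        ∑ h ∈ Ioc 0 L, ∑ x ∈ Icc (1 : ℤ) N, ind P x * pv (x + 1 * (h : ℤ) + b) := by
      have e0 : cs (AA P N) b L = ∑ a ∈ AA P N, (fun x : ℤ => ∑ h ∈ Ioc 0 L, pv (x + 1 * (h : ℤ) + b)) a := by
        unfold cs
        apply sum_congr rfl
        intro a _
        rw [pn_pv]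
        apply sum_congr rfl
        intro h _
        congr 1
        push_cast; ring
      rw [e0, sum_AA P N (fun x : ℤ => ∑ h ∈ Ioc 0 L, pv (x + 1 * (h : ℤ) + b)), sum_comm]
      apply sum_congr rfl
      intro x _
      rw [mul_sum]
    rw [hAc] at g1
    exact mainstep hε he2 hℓ0 (by omega) hLη P (fun y => pv (y + b)) (fun y => pv_mem _) hbad 1
      (Or.inl rfl) _ hcs g1
  · -- sums
    set A : Finset ℕ := (AA P N).image (fun a => N - a) with hA
    have hinj : Set.InjOn (fun a : ℕ => N - a) (AA P N : Set ℕ) := by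
      intro x hx y hy hxy
      have := AA_le hx
      have := AA_le hy
      simp only at hxy
      omega
    have hAc : (A.card : ℝ) = cnt P N := by
      rw [← card_AA P N, hA, card_image_of_injOn hinj]
    obtain ⟨X, hX1, hX2, hX3⟩ := h1 A (fun a ha => by
      obtain ⟨x, _, rfl⟩ := mem_image.1 ha
      exact Nat.sub_le _ _) (by rw [hAc]; exact hlow)
    refine ⟨X, hX1, hXc X hX2, fun b hb hbX => ?_⟩
    obtain ⟨g1, _⟩ := hX3 b hb hbX L hLK hLN
    rw [mem_Icc] at hb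
    have hbad : (∑ y ∈ BB P N L, pv ((N : ℤ) + b - y)) * ℓ ≤ ε' * N := by
      refine h2 L hL21 (E.filter (fun n => n ∈ Icc (1 : ℤ) (N - 3 * L))) hEc
        (fun y => pv ((N : ℤ) + b - y))
        (fun y => (pv_mem _).1) (fun n => ((N : ℤ) + b - n - 2 * L - 1).toNat) ?_ ?_ ?_ _ (BB_prop hE2)
      · intro x hx y hy hxy
        rw [mem_coe, mem_filter, mem_Icc] at hx hy
        simp only at hxy
        omega
      · intro n hn
        rw [mem_filter, mem_Icc] at hn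
        rw [mem_Icc]; omega
      · intro n hn
        rw [mem_filter, mem_Icc] at hn
        have e1 := window ((N : ℤ) + b - n - 2 * L - 1).toNat L ((N : ℤ) + b - n - 2 * L) (by omega)
        rw [← e1]
        apply le_of_eq
        apply sum_bij (fun (y : ℤ) _ => (N : ℤ) + b - y)
        · intro y hy
          rw [mem_Icc] at hy ⊢; omega
        · intro x _ y _ hxy; omega
        · intro y hy
          rw [mem_Icc] at hy
          exact ⟨(N : ℤ) + b - y, by rw [mem_Icc]; omega, by ring⟩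
        · intro y _; rfl
    have hcs : cs A b L =
        ∑ h ∈ Ioc 0 L, ∑ x ∈ Icc (1 : ℤ) N, ind P x * pv ((N : ℤ) + b - (x + -1 * (h : ℤ))) := by
      have e0 : cs A b L = ∑ a ∈ AA P N,
          (fun x : ℤ => ∑ h ∈ Ioc 0 L, pv ((N : ℤ) + b - (x + -1 * (h : ℤ)))) a := by
        unfold cs
        rw [hA, sum_image hinj]
        apply sum_congr rfl
        intro a ha
        have := AA_le ha
        rw [pn_pv]
        apply sum_congr rfl
        intro h _
        congr 1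
        omega
      rw [e0, sum_AA P N (fun x : ℤ => ∑ h ∈ Ioc 0 L, pv ((N : ℤ) + b - (x + -1 * (h : ℤ)))), sum_comm]
      apply sum_congr rfl
      intro x _
      rw [mul_sum]
    rw [hAc] at g1
    exact mainstep hε he2 hℓ0 (by omega) hLη P (fun y => pv ((N : ℤ) + b - y)) (fun y => pv_mem _) hbad
      (-1) (Or.inr rfl) _ hcs g1

end Pool.Agent.TH204.CP
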