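import Mathlib
import Pool.Agent.H33.G.R_seed8.TH204.CP.Core2

/-! The estimates for all sets; sums `n = p + x` with all `x < n`. -/

set_option autoImplicit false

namespace Pool.Agent.TH204.CP
open Finset Filter Pool.Agent.W301.SS

lemma ind_not (P : ℤ → Prop) (x : ℤ) : ind (fun x => ¬ P x) x = 1 - ind P x := by
  unfold ind
  by_cases h : P x
  · rw [if_neg (not_not.2 h), if_pos h]; norm_num
  · rw [if_pos h, if_neg h]; norm_num

lemma cnt_not (P : ℤ → Prop) (N : ℕ) : cnt (fun x => ¬ P x) N = N - cnt P N := by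
  unfold cnt
  simp_rw [ind_not]
  rw [sum_sub_distrib, sum_const, Int.card_Icc, nsmul_eq_mul, mul_one]
  congr 1
  have : ((N : ℤ) + 1 - 1).toNat = N := by omega
  rw [this]

lemma LocE_not {P : ℤ → Prop} {E : Finset ℤ} {N L : ℕ} (h : LocE P E N L) :
    LocE (fun x => ¬ P x) E N L := fun n hn hnE j hj => not_congr (h n hn hnE j hj)

lemma LocE_mono {P : ℤ → Prop} {E : Finset ℤ} {M N L : ℕ} (h : LocE P E N L) (hMN : M ≤ N) :
    LocE P E M L := fun n hn hnE j hj => h n (by rw [mem_Icc] at hn ⊢; omega) hnE j hj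

/-- primes in an interval, by `π` -/
lemma sum_pv (a b : ℕ) (hab : a ≤ b) : ∑ y ∈ Icc ((a : ℤ) + 1) b, pv y =
    (Nat.primeCounting b : ℝ) - Nat.primeCounting a := by
  rw [← Pool.Agent.H357R2.SI.pc_eq_sub hab]
  unfold Pool.Agent.H357R2.SI.pc
  rw [card_filter]
  push_cast
  symm
  apply sum_bij (fun (h : ℕ) _ => (h : ℤ))
  · intro h hh
    rw [mem_Ioc] at hh
    rw [mem_Icc]; omega
  · intro a _ b _ hab; omega
  · intro y hy
    rw [mem_Icc] at hy
    exact ⟨y.toNat, by rw [mem_Ioc]; omega, by omega⟩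
  · intro h _
    unfold pv
    rw [Int.toNat_natCast]

lemma QD_le (P : ℤ → Prop) (b N : ℕ) :
    QD P b N + QD (fun x => ¬ P x) b N = (Nat.primeCounting (b + N) : ℝ) - Nat.primeCounting b := by
  rw [← sum_pv b (b + N) (by omega)]
  unfold QD
  rw [← sum_add_distrib]
  apply sum_bij (fun (x : ℤ) _ => x + b)
  · intro x hx
    rw [mem_Icc] at hx ⊢
    push_cast; omega
  · intro x _ y _ h; omega
  · intro y hy
    rw [mem_Icc] at hy
    push_cast at hy
    exact ⟨y - b, by rw [mem_Icc]; omega, by ring⟩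
  · intro x _
    rw [ind_not]; ring

lemma QS_add (P : ℤ → Prop) (n N : ℕ) (h : N < n) :
    QS P n N + QS (fun x => ¬ P x) n N = (Nat.primeCounting (n - 1) : ℝ) - Nat.primeCounting (n - N - 1) := by
  rw [← sum_pv (n - N - 1) (n - 1) (by omega)]
  unfold QS
  rw [← sum_add_distrib]
  apply sum_bij (fun (x : ℤ) _ => (n : ℤ) - x)
  · intro x hx
    rw [mem_Icc] at hx ⊢; omega
  · intro x _ y _ h; omega
  · intro y hy
    rw [mem_Icc] at hy
    exact ⟨(n : ℤ) - y, by rw [mem_Icc]; omega, by ring⟩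
  · intro x _
    rw [ind_not]; ring

theorem core3 (C : ℕ) (ε : ℝ) (hε : 0 < ε) : ∃ (K : ℕ) (η : ℝ), 0 < η ∧ ∀ᶠ N : ℕ in atTop,
    ∀ L : ℕ, Real.log N ^ K ≤ L → (L : ℝ) * Real.log N ≤ η * N → ∀ (P : ℤ → Prop) (E : Finset ℤ),
    (E.card : ℝ) ≤ η * N → LocE P E N L →
    (∃ X : Finset ℕ, X ⊆ Icc 1 N ∧ (X.card : ℝ) * Real.log N ^ C ≤ N ∧
      ∀ b ∈ Icc 1 N, b ∉ X → |QD P b N * Real.log N - cnt P N| ≤ ε * N) ∧
    (∃ X : Finset ℕ, X ⊆ Icc 1 N ∧ (X.card : ℝ) * Real.log N ^ C ≤ N ∧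
      ∀ b ∈ Icc 1 N, b ∉ X → |QS P ((N : ℤ) + b) N * Real.log N - cnt P N| ≤ ε * N) := by
  obtain ⟨K, η, hη0, h⟩ := core1 C (ε / 2) (by positivity)
  refine ⟨K, η, hη0, ?_⟩
  filter_upwards [h, pi_unif (ε / 8) (by positivity), ev_L (8 / ε + 1), eventually_ge_atTop 16] with
    N h1 h2 hℓ hN16 L hL1 hL2 P E hE1 hE2
  have hNr : (16 : ℝ) ≤ N := by exact_mod_cast hN16
  have hN0 : (0 : ℝ) < N := by linarith
  rcases le_or_gt (N : ℝ) (3 * cnt P N) with hc | hc
  · obtain ⟨⟨X, hX1, hX2, hX3⟩, ⟨Y, hY1, hY2, hY3⟩⟩ := h1 L hL1 hL2 P E hE1 hE2 hc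
    exact ⟨⟨X, hX1, hX2, fun b hb hbX => (hX3 b hb hbX).trans (by nlinarith)⟩,
      ⟨Y, hY1, hY2, fun b hb hbX => (hY3 b hb hbX).trans (by nlinarith)⟩⟩
  · have hc' : (N : ℝ) ≤ 3 * cnt (fun x => ¬ P x) N := by
      rw [cnt_not]; linarith
    obtain ⟨⟨X, hX1, hX2, hX3⟩, ⟨Y, hY1, hY2, hY3⟩⟩ :=
      h1 L hL1 hL2 (fun x => ¬ P x) E hE1 (LocE_not hE2) hc'
    have hup : ∀ a b : ℕ, a ≤ 4 * N → b ≤ 4 * N →
        |((Nat.primeCounting b : ℝ) - Nat.primeCounting a) * Real.log N - ((b : ℝ) - a)| ≤ ε / 4 * N := by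
      intro a b ha hb
      have g1 := abs_le.1 (h2 a ha)
      have g2 := abs_le.1 (h2 b hb)
      rw [abs_le]
      constructor <;> nlinarith
    refine ⟨⟨X, hX1, hX2, fun b hb hbX => ?_⟩, ⟨Y, hY1, hY2, fun b hb hbX => ?_⟩⟩
    · have g := abs_le.1 (hX3 b hb hbX)
      rw [mem_Icc] at hb
      have g2 := abs_le.1 (hup b (b + N) (by omega) (by omega))
      have e1 := QD_le P b N
      rw [cnt_not] at g
      rw [← e1] at g2
      push_cast at g2
      rw [abs_le]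
      constructor <;> nlinarith
    · have g := abs_le.1 (hY3 b hb hbX)
      rw [mem_Icc] at hb
      have g2 := abs_le.1 (hup (b - 1) (N + b - 1) (by omega) (by omega))
      have e1 := QS_add P (N + b) N (by omega)
      rw [cnt_not] at g
      rw [show N + b - N - 1 = b - 1 by omega] at e1
      rw [← e1] at g2
      rw [Nat.cast_sub (by omega : 1 ≤ N + b), Nat.cast_sub hb.1] at g2
      push_cast at g2 g ⊢
      rw [abs_le]
      constructor <;> nlinarith

/-- small part of the sum -/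
lemma QS_tail (P : ℤ → Prop) (n M : ℕ) (hMn : M < n) :
    0 ≤ QS P n n - QS P n M ∧ QS P n n - QS P n M ≤ Nat.primeCounting (n - M) := by
  have e1 : QS P n n - QS P n M = ∑ x ∈ Icc ((M : ℤ) + 1) n, ind P x * pv (n - x) := by
    unfold QS
    rw [sub_eq_iff_eq_add, ← sum_union]
    · apply sum_congr _ (fun _ _ => rfl)
      ext x
      rw [mem_union, mem_Icc, mem_Icc, mem_Icc]; omega
    · rw [disjoint_left]
      intro x h1 h2
      rw [mem_Icc] at h1 h2; omega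
  rw [e1]
  constructor
  · exact sum_nonneg fun x _ => mul_nonneg (ind_mem P x).1 (pv_mem _).1
  · have e2 : ∑ x ∈ Icc ((M : ℤ) + 1) n, ind P x * pv (n - x) ≤
        ∑ x ∈ Icc ((M : ℤ) + 1) n, pv (n - x) :=
      sum_le_sum fun x _ => mul_le_of_le_one_left (pv_mem _).1 (ind_mem P x).2
    refine e2.trans ?_
    have e3 : ∑ x ∈ Icc ((M : ℤ) + 1) n, pv (n - x) = ∑ y ∈ Icc (0 : ℤ) (n - M - 1), pv y := by
      apply sum_bij (fun (x : ℤ) _ => (n : ℤ) - x)
      · intro x hx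
        rw [mem_Icc] at hx ⊢; omega
      · intro x _ y _ h; omega
      · intro y hy
        rw [mem_Icc] at hy
        exact ⟨(n : ℤ) - y, by rw [mem_Icc]; omega, by ring⟩
      · intro x _; rfl
    rw [e3]
    have e4 := sum_pv 0 (n - M) (by omega)
    rw [show Nat.primeCounting 0 = 0 by decide] at e4
    push_cast at e4
    rw [sub_zero] at e4
    rw [← e4]
    have e5 : ∑ y ∈ Icc (0 : ℤ) (n - M - 1), pv y ≤ pv 0 + ∑ y ∈ Icc (0 + 1 : ℤ) ((n - M : ℕ) : ℤ), pv y := by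
      rw [← sum_insert (by rw [mem_Icc]; omega)]
      apply sum_le_sum_of_subset_of_nonneg
      · intro y hy
        rw [mem_Icc] at hy
        rw [mem_insert, mem_Icc]; omega
      · intro y _ _; exact (pv_mem y).1
    refine e5.trans ?_
    have : pv 0 = 0 := by
      unfold pv
      rw [if_neg]
      norm_num
    rw [this, zero_add, zero_add]

end Pool.Agent.TH204.CP
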