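import Mathlib
import Pool.Agent.H33.G.R_seed8.TH204.CP.Sums

/-! Sums `n = p + q + x`, `P x`. -/

set_option autoImplicit false

namespace Pool.Agent.TH204.CP
open Finset Filter Pool.Agent.W301.SS

/-- the weighted number of `n = p + q + x` -/
noncomputable def TT3 (P : ℤ → Prop) (n : ℕ) : ℝ := ∑ m ∈ Icc 1 n, pv ((n : ℤ) - m) * QS P m m

lemma sum_pv_sub (n j : ℕ) (hj : 1 ≤ j) (hjn : j ≤ n) :
    ∑ m ∈ Icc j n, pv ((n : ℤ) - m) = Nat.primeCounting (n - j) := by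
  have e4 := sum_pv 0 (n - j) (by omega)
  rw [show Nat.primeCounting 0 = 0 by decide] at e4
  push_cast at e4
  rw [sub_zero] at e4
  rw [← e4]
  have e5 : ∑ m ∈ Icc j n, pv ((n : ℤ) - m) = ∑ m ∈ Icc j (n - 1), pv ((n : ℤ) - m) := by
    symm
    apply sum_subset
    · intro m hm
      rw [mem_Icc] at hm ⊢; omega
    · intro m hm hm'
      rw [mem_Icc] at hm hm'
      have : (n : ℤ) - m = 0 := by omega
      rw [this]
      unfold pv
      rw [if_neg]; norm_num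
  rw [e5]
  apply sum_bij (fun (m : ℕ) _ => (n : ℤ) - m)
  · intro m hm
    rw [mem_Icc] at hm ⊢; omega
  · intro x _ y _ h; omega
  · intro y hy
    rw [mem_Icc] at hy
    exact ⟨((n : ℤ) - y).toNat, by rw [mem_Icc]; omega, by omega⟩
  · intro m _; rfl

/-- the weights -/
lemma wsum (n : ℕ) : ∑ m ∈ Icc 1 n, pv ((n : ℤ) - m) * m = ∑ i ∈ range n, (Nat.primeCounting i : ℝ) := by
  have e1 : ∀ m ∈ Icc 1 n, pv ((n : ℤ) - m) * m = ∑ j ∈ Icc 1 n, if j ≤ m then pv ((n : ℤ) - m) else 0 := by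
    intro m hm
    rw [mem_Icc] at hm
    rw [← sum_filter, sum_const, nsmul_eq_mul]
    have : (Icc 1 n).filter (fun j => j ≤ m) = Icc 1 m := by
      ext j
      rw [mem_filter, mem_Icc, mem_Icc]; omega
    rw [this, Nat.card_Icc, Nat.add_sub_cancel]; ring
  rw [sum_congr rfl e1, sum_comm]
  have e2 : ∀ j ∈ Icc 1 n, ∑ m ∈ Icc 1 n, (if j ≤ m then pv ((n : ℤ) - m) else 0) =
      (Nat.primeCounting (n - j) : ℝ) := by
    intro j hj
    rw [mem_Icc] at hj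
    rw [← sum_pv_sub n j hj.1 hj.2, ← sum_filter]
    apply sum_congr _ (fun _ _ => rfl)
    ext m
    rw [mem_filter, mem_Icc, mem_Icc]; omega
  rw [sum_congr rfl e2]
  apply sum_bij (fun (j : ℕ) _ => n - j)
  · intro j hj
    rw [mem_Icc] at hj
    rw [mem_range]; omega
  · intro x hx y hy h
    rw [mem_Icc] at hx hy
    omega
  · intro i hi
    rw [mem_range] at hi
    exact ⟨n - i, by rw [mem_Icc]; omega, by omega⟩
  · intro j _; rfl

lemma QS_nonneg (P : ℤ → Prop) (n : ℤ) (N : ℕ) : 0 ≤ QS P n N :=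
  sum_nonneg fun x _ => mul_nonneg (ind_mem P x).1 (pv_mem _).1

lemma QS_le_pi (P : ℤ → Prop) (m : ℕ) : QS P m m ≤ Nat.primeCounting m := by
  rcases Nat.eq_zero_or_pos m with rfl | hm
  · unfold QS
    simp
  have h := (QS_tail P m 0 hm).2
  have h0 : QS P m 0 = 0 := by
    unfold QS
    simp
  rw [h0, sub_zero, Nat.sub_zero] at h
  exact h

lemma pt1 {a δ ε₁ ℓ n m π : ℝ} (h0 : 0 ≤ a) (h1 : a ≤ π) (h3 : π * ℓ - m ≤ ε₁ * n)
    (hℓ0 : 0 < ℓ) (he1 : ε₁ ≤ 1) (hn : 0 < n) (hm : 0 ≤ m) (hmn : m ≤ n) (hδ : |δ| ≤ 2) :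
    |a * ℓ - δ * m| ≤ 4 * n := by
  have h4 : |δ * m| ≤ 2 * n := by
    rw [abs_mul, abs_of_nonneg hm]
    exact mul_le_mul hδ hmn hm (by norm_num)
  have h4' := abs_le.1 h4
  have h5 : a * ℓ ≤ π * ℓ := mul_le_mul_of_nonneg_right h1 hℓ0.le
  have h6 : 0 ≤ a * ℓ := mul_nonneg h0 hℓ0.le
  have h7 : ε₁ * n ≤ 1 * n := mul_le_mul_of_nonneg_right he1 hn.le
  rw [abs_le]
  constructor <;> linarith

lemma pt2 {a δ ε₁ ℓ n m π : ℝ} (h0 : 0 ≤ a) (h1 : a ≤ π) (h3 : π * ℓ - m ≤ ε₁ * n)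
    (hℓ0 : 0 < ℓ) (hm : 0 ≤ m) (hmn : m ≤ ε₁ * n) (hδ : |δ| ≤ 2) :
    |a * ℓ - δ * m| ≤ 4 * ε₁ * n := by
  have h4 : |δ * m| ≤ 2 * (ε₁ * n) := by
    rw [abs_mul, abs_of_nonneg hm]
    exact mul_le_mul hδ hmn hm (by norm_num)
  have h4' := abs_le.1 h4
  have h5 : a * ℓ ≤ π * ℓ := mul_le_mul_of_nonneg_right h1 hℓ0.le
  have h6 : 0 ≤ a * ℓ := mul_nonneg h0 hℓ0.le
  rw [abs_le]
  constructor <;> linarith

lemma pt3 {a δ ε₁ ℓ n m c lm : ℝ} (h2 : 0 ≤ a) (h1 : |a * lm - δ * m| ≤ ε₁ * m)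
    (hlmn : lm ≤ ℓ) (hlm0 : 0 < lm) (he0 : 0 < ε₁) (he1 : ε₁ ≤ 1)
    (hm : 0 ≤ m) (hmn : m ≤ n) (hδ : |δ| ≤ 2) (h5 : ℓ - lm ≤ c) (hc : 0 ≤ c) (h6 : c * 3 ≤ ε₁ * lm) :
    |a * ℓ - δ * m| ≤ 4 * ε₁ * n := by
  have h1' := abs_le.1 h1
  have hδm : |δ * m| ≤ 2 * m := by
    rw [abs_mul, abs_of_nonneg hm]
    exact mul_le_mul_of_nonneg_right hδ hm
  have hδm' := abs_le.1 hδm
  have he1m : ε₁ * m ≤ 1 * m := mul_le_mul_of_nonneg_right he1 hm
  have he1n : ε₁ * m ≤ ε₁ * n := mul_le_mul_of_nonneg_left hmn he0.le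
  have h3 : a * lm ≤ 3 * m := by linarith
  have h4 : a * (ℓ - lm) ≤ ε₁ * m := by
    have h7 : lm * (a * (ℓ - lm)) ≤ lm * (ε₁ * m) := by
      calc lm * (a * (ℓ - lm)) ≤ lm * (a * c) := by gcongr
        _ = (a * lm) * c := by ring
        _ ≤ (3 * m) * c := by gcongr
        _ = (c * 3) * m := by ring
        _ ≤ (ε₁ * lm) * m := by gcongr
        _ = _ := by ring
    exact le_of_mul_le_mul_left h7 hlm0
  have h5' : 0 ≤ a * (ℓ - lm) := mul_nonneg h2 (by linarith)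
  have h6' : a * ℓ = a * lm + a * (ℓ - lm) := by ring
  have h7 : 0 ≤ ε₁ * n := mul_nonneg he0.le (hm.trans hmn)
  rw [h6', abs_le]
  constructor <;> linarith

theorem ternary (ε : ℝ) (hε : 0 < ε) : ∃ (K : ℕ) (η : ℝ), 0 < η ∧ ∀ᶠ n : ℕ in atTop,
    ∀ L : ℕ, Real.log n ^ K ≤ L → (L : ℝ) * Real.log n ≤ η * n → ∀ (P : ℤ → Prop) (E : Finset ℤ),
    (E.card : ℝ) ≤ η * n → LocE P E (2 * n) L → ∀ δ : ℝ,
    (∀ M : ℕ, η * n ≤ M → M ≤ 2 * n → |cnt P M - δ * M| ≤ η * M) →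
    |TT3 P n * Real.log n ^ 2 - δ * n ^ 2 / 2| ≤ ε * n ^ 2 := by
  classical
  set ε₁ : ℝ := min (ε / 16) 1 with hε₁
  have he0 : 0 < ε₁ := lt_min (by positivity) one_pos
  have he1 : ε₁ ≤ 1 := min_le_right _ _
  have he2 : ε₁ ≤ ε / 16 := min_le_left _ _
  obtain ⟨K, η, hη0, hs⟩ := sums 2 ε₁ he0
  obtain ⟨k0, hk0⟩ : ∃ k : ℕ, 1 / ε₁ ≤ 2 ^ k := by
    obtain ⟨k, hk⟩ := pow_unbounded_of_one_lt (1 / ε₁) (by norm_num : (1 : ℝ) < 2)
    exact ⟨k, hk.le⟩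
  set η₂ : ℝ := min (min η 1) (1 / 2) / 2 ^ (k0 + 1) with hη₂
  have hmin0 : 0 < min (min η 1) (1 / 2) := lt_min (lt_min hη0 one_pos) (by norm_num)
  have hη20 : 0 < η₂ := by rw [hη₂]; positivity
  refine ⟨K, η₂, hη20, ?_⟩
  obtain ⟨N1, hN1⟩ := eventually_atTop.1 hs
  set c : ℝ := k0 + 2 with hc
  have hc0 : 0 < c := by rw [hc]; positivity
  filter_upwards [eventually_ge_atTop (2 ^ (k0 + 1) * (N1 + 16)), pi_unif ε₁ he0,
    ev_L (6 * c / ε₁ + 2 * c + 16 * (k0 + 1) / ε₁ + 16), ev_L (1 / ε₁),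
    tendsto_natCast_atTop_atTop.eventually_ge_atTop (1 / ε₁)] with
    n hnN hpi hℓn _ hnε L hL1 hL2 P E hE1 hE2 δ hδ
  have hk1 : 1 ≤ 2 ^ (k0 + 1) := Nat.one_le_two_pow
  have hn16 : 16 ≤ n := by nlinarith
  have hnr : (16 : ℝ) ≤ n := by exact_mod_cast hn16
  have hn0 : (0 : ℝ) < n := by linarith
  set ℓ := Real.log n with hℓ
  have p1 : 0 < 6 * c / ε₁ := by positivity
  have p2 : 0 < 16 * ((k0 : ℝ) + 1) / ε₁ := by positivity
  have hℓ0 : 0 < ℓ := by linarith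
  set N0 : ℕ := n / 2 ^ k0 with hN0
  have h2k : 0 < 2 ^ k0 := by positivity
  have hN0le : N0 * 2 ^ k0 ≤ n := Nat.div_mul_le_self _ _
  have hN0lt : n < N0 * 2 ^ k0 + 2 ^ k0 := Nat.lt_div_mul_add h2k
  have hN0big : N1 + 16 ≤ N0 := by
    rw [hN0, Nat.le_div_iff_mul_le h2k]
    have : 2 ^ (k0 + 1) * (N1 + 16) = 2 * ((N1 + 16) * 2 ^ k0) := by rw [pow_succ]; ring
    have h3 : 0 ≤ (N1 + 16) * 2 ^ k0 := Nat.zero_le _
    omega
  have hN0r : (16 : ℝ) ≤ N0 := by exact_mod_cast (by omega : 16 ≤ N0)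
  have hk2 : (0 : ℝ) < 2 ^ k0 := by positivity
  have hN0n : (N0 : ℝ) * 2 ^ k0 ≤ n := by exact_mod_cast hN0le
  have hN0n2 : (n : ℝ) ≤ N0 * 2 ^ (k0 + 1) := by
    have h1 : (n : ℝ) ≤ N0 * 2 ^ k0 + 2 ^ k0 := by exact_mod_cast hN0lt.le
    rw [pow_succ]; nlinarith
  have hN0ε : (N0 : ℝ) ≤ ε₁ * n := by
    have h1 : (N0 : ℝ) * (1 / ε₁) ≤ n := (mul_le_mul_of_nonneg_left hk0 (by linarith)).trans hN0n
    rw [mul_one_div, div_le_iff₀ he0] at h1
    linarith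
  have hη2n : ∀ x : ℝ, x ≤ η₂ * n → x ≤ min (min η 1) (1 / 2) * N0 := by
    intro x hx
    refine hx.trans ?_
    rw [hη₂, div_mul_eq_mul_div, div_le_iff₀ (by positivity)]
    calc min (min η 1) (1 / 2) * (n : ℝ) ≤ min (min η 1) (1 / 2) * (N0 * 2 ^ (k0 + 1)) := by gcongr
      _ = _ := by ring
  have hη2η : η₂ ≤ min (min η 1) (1 / 2) := by
    rw [hη₂]
    apply div_le_self hmin0.le
    exact one_le_pow₀ (by norm_num)
  have hηη : min (min η 1) (1 / 2) ≤ η := (min_le_left _ _).trans (min_le_left _ _)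
  have hη1 : min (min η 1) (1 / 2) ≤ 1 := (min_le_left _ _).trans (min_le_right _ _)
  -- `δ` is bounded
  have hδ2 : |δ| ≤ 2 := by
    have h1 := abs_le.1 (hδ n (by
      have : η₂ * n ≤ 1 * n := mul_le_mul_of_nonneg_right (hη2η.trans hη1) hn0.le
      linarith) (by omega))
    have c1 := cnt_le P n
    have c0 := cnt_nonneg P n
    have h2 : η₂ * n ≤ 1 * n := mul_le_mul_of_nonneg_right (hη2η.trans hη1) hn0.le
    rw [abs_le]
    constructor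
    · by_contra hcon
      push Not at hcon
      have : δ * n < -2 * n := mul_lt_mul_of_pos_right hcon hn0
      linarith
    · by_contra hcon
      push Not at hcon
      have : 2 * (n : ℝ) < δ * n := mul_lt_mul_of_pos_right hcon hn0
      linarith
  have hlog0 : ℓ - c ≤ Real.log N0 := by
    have h1 := Real.log_le_log hn0 hN0n2
    rw [Real.log_mul (by linarith) (by positivity), Real.log_pow] at h1
    have h2 := Real.log_two_lt_d9
    have h3 : ((k0 + 1 : ℕ) : ℝ) * Real.log 2 ≤ c := by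
      push_cast
      have : (0 : ℝ) ≤ k0 := Nat.cast_nonneg _
      have h4 := Real.log_two_gt_d9
      nlinarith
    linarith
  have hlog0' : ℓ / 2 ≤ Real.log N0 := by linarith
  -- the dyadic blocks
  have hblock : ∀ k : ℕ, k ≤ k0 → ∃ X : Finset ℕ, X ⊆ Ioc (2 ^ k * N0) (2 * (2 ^ k * N0)) ∧
      (X.card : ℝ) * Real.log ((2 ^ k * N0 : ℕ) : ℝ) ^ 2 ≤ ((2 ^ k * N0 : ℕ) : ℝ) ∧
      ∀ m ∈ Ioc (2 ^ k * N0) (2 * (2 ^ k * N0)), m ∉ X → |QS P m m * Real.log m - δ * m| ≤ ε₁ * m := by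
    intro k hk
    have hkk : 2 ^ k ≤ 2 ^ k0 := Nat.pow_le_pow_right (by norm_num) hk
    have h1k : 1 ≤ 2 ^ k := Nat.one_le_two_pow
    have hNk1 : N0 ≤ 2 ^ k * N0 := Nat.le_mul_of_pos_left _ (by positivity)
    have hNk2 : 2 ^ k * N0 ≤ n := by
      calc 2 ^ k * N0 ≤ 2 ^ k0 * N0 := Nat.mul_le_mul_right _ hkk
        _ = N0 * 2 ^ k0 := mul_comm _ _
        _ ≤ n := hN0le
    set Nk : ℕ := 2 ^ k * N0 with hNk
    have hNk1r : (N0 : ℝ) ≤ Nk := by exact_mod_cast hNk1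
    have hNk2r : (Nk : ℝ) ≤ n := by exact_mod_cast hNk2
    have hlk : Real.log Nk ≤ ℓ := Real.log_le_log (by linarith) hNk2r
    have hlk0 : 0 ≤ Real.log Nk := Real.log_nonneg (by linarith)
    have hmN : min (min η 1) (1 / 2) * (N0 : ℝ) ≤ η * Nk := by
      apply mul_le_mul hηη hNk1r (by linarith) hη0.le
    refine hN1 Nk (by omega) L ?_ ?_ P E ?_ (LocE_mono hE2 (by omega)) δ ?_
    · exact (pow_le_pow_left₀ hlk0 hlk K).trans hL1
    · calc (L : ℝ) * Real.log Nk ≤ L * ℓ := by gcongr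
        _ ≤ η₂ * n := hL2
        _ ≤ min (min η 1) (1 / 2) * N0 := hη2n _ le_rfl
        _ ≤ _ := hmN
    · exact (hη2n _ hE1).trans hmN
    · intro M hM1 hM2
      have hM1r : (Nk : ℝ) ≤ M := by exact_mod_cast hM1
      refine (hδ M ?_ (by omega)).trans ?_
      · refine (hη2n _ le_rfl).trans ?_
        calc min (min η 1) (1 / 2) * (N0 : ℝ) ≤ 1 * N0 := by gcongr
          _ ≤ M := by linarith
      · apply mul_le_mul_of_nonneg_right _ (Nat.cast_nonneg _)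
        exact hη2η.trans hηη
  choose! Xf hX1 hX2 hX3 using hblock
  set X : Finset ℕ := (range (k0 + 1)).biUnion Xf with hX
  have hXc : (X.card : ℝ) * ℓ ≤ ε₁ / 4 * n := by
    have h1 : (X.card : ℝ) ≤ ∑ k ∈ range (k0 + 1), ((Xf k).card : ℝ) := by
      exact_mod_cast card_biUnion_le
    have h2 : ∀ k ∈ range (k0 + 1), ((Xf k).card : ℝ) * (ℓ ^ 2) ≤ 4 * n := by
      intro k hk
      rw [mem_range] at hk
      have hkk : 2 ^ k ≤ 2 ^ k0 := Nat.pow_le_pow_right (by norm_num) (by omega)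
      have hNk1 : N0 ≤ 2 ^ k * N0 := Nat.le_mul_of_pos_left _ (by positivity)
      have hNk2 : 2 ^ k * N0 ≤ n := by
        calc 2 ^ k * N0 ≤ 2 ^ k0 * N0 := Nat.mul_le_mul_right _ hkk
          _ = N0 * 2 ^ k0 := mul_comm _ _
          _ ≤ n := hN0le
      have h3 := hX2 k (by omega)
      have h4 : Real.log N0 ≤ Real.log ((2 ^ k * N0 : ℕ) : ℝ) :=
        Real.log_le_log (by linarith) (by exact_mod_cast hNk1)
      have h5 : ((2 ^ k * N0 : ℕ) : ℝ) ≤ n := by exact_mod_cast hNk2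
      have h6 : (ℓ / 2) ^ 2 ≤ Real.log ((2 ^ k * N0 : ℕ) : ℝ) ^ 2 :=
        pow_le_pow_left₀ (by linarith) (hlog0'.trans h4) 2
      have h7 : ((Xf k).card : ℝ) * (ℓ / 2) ^ 2 ≤ n :=
        (mul_le_mul_of_nonneg_left h6 (Nat.cast_nonneg _)).trans (h3.trans h5)
      nlinarith
    have h3 : (X.card : ℝ) * ℓ ^ 2 ≤ (k0 + 1) * (4 * n) := by
      calc (X.card : ℝ) * ℓ ^ 2 ≤ (∑ k ∈ range (k0 + 1), ((Xf k).card : ℝ)) * ℓ ^ 2 :=
            mul_le_mul_of_nonneg_right h1 (by positivity)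
        _ = ∑ k ∈ range (k0 + 1), ((Xf k).card : ℝ) * ℓ ^ 2 := sum_mul _ _ _
        _ ≤ ∑ k ∈ range (k0 + 1), (4 * n : ℝ) := sum_le_sum h2
        _ = _ := by rw [sum_const, card_range, nsmul_eq_mul]; push_cast; ring
    have h4 : ((k0 : ℝ) + 1) * (4 * n) ≤ ℓ * (ε₁ / 4 * n) := by
      have h5 : 16 * ((k0 : ℝ) + 1) / ε₁ ≤ ℓ := by linarith
      rw [div_le_iff₀ he0] at h5
      nlinarith
    have h5 : ℓ * ((X.card : ℝ) * ℓ) ≤ ℓ * (ε₁ / 4 * n) := by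
      calc ℓ * ((X.card : ℝ) * ℓ) = (X.card : ℝ) * ℓ ^ 2 := by ring
        _ ≤ _ := h3.trans h4
    exact le_of_mul_le_mul_left h5 hℓ0
  -- the bound at single points
  have hF1 : ∀ m ∈ Icc 1 n, |QS P m m * ℓ - δ * m| ≤ 4 * n := by
    intro m hm
    rw [mem_Icc] at hm
    exact pt1 (QS_nonneg P m m) (QS_le_pi P m) (abs_le.1 (hpi m (by omega))).2 hℓ0 he1 hn0
      (Nat.cast_nonneg _) (by exact_mod_cast hm.2) hδ2
  have hF2 : ∀ m ∈ Icc 1 n, m ∉ X → |QS P m m * ℓ - δ * m| ≤ 4 * ε₁ * n := by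
    intro m hm hmX
    rw [mem_Icc] at hm
    have hmn : (m : ℝ) ≤ n := by exact_mod_cast hm.2
    have hm1 : (1 : ℝ) ≤ m := by exact_mod_cast hm.1
    rcases le_or_gt m N0 with hmN | hmN
    · have hmN' : (m : ℝ) ≤ N0 := by exact_mod_cast hmN
      exact pt2 (QS_nonneg P m m) (QS_le_pi P m) (abs_le.1 (hpi m (by omega))).2 hℓ0
        (Nat.cast_nonneg _) (hmN'.trans hN0ε) hδ2
    · -- the block of `m`
      set k := Nat.log 2 ((m - 1) / N0) with hk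
      have hN0p : 0 < N0 := by omega
      have hq : (m - 1) / N0 ≠ 0 := by
        have : 1 ≤ (m - 1) / N0 := by
          rw [Nat.le_div_iff_mul_le hN0p]; omega
        omega
      have hk1' : 2 ^ k * N0 ≤ m - 1 := by
        rw [← Nat.le_div_iff_mul_le hN0p]
        exact Nat.pow_log_le_self 2 hq
      have hk2' : m - 1 < 2 ^ (k + 1) * N0 := by
        rw [← Nat.div_lt_iff_lt_mul hN0p]
        exact Nat.lt_pow_succ_log_self (by norm_num) _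
      have hkk0 : k ≤ k0 := by
        by_contra hcon
        push Not at hcon
        have h1 : 2 ^ (k0 + 1) ≤ 2 ^ k := Nat.pow_le_pow_right (by norm_num) hcon
        have h2 : 2 ^ (k0 + 1) * N0 ≤ 2 ^ k * N0 := Nat.mul_le_mul_right _ h1
        have h3 : n ≤ N0 * 2 ^ (k0 + 1) := by exact_mod_cast hN0n2
        have h4 : N0 * 2 ^ (k0 + 1) = 2 ^ (k0 + 1) * N0 := mul_comm _ _
        omega
      have hmX' : m ∉ Xf k := fun h => hmX (mem_biUnion.2 ⟨k, mem_range.2 (by omega), h⟩)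
      have h1 := hX3 k hkk0 m (by
        rw [mem_Ioc]
        rw [pow_succ] at hk2'
        have : 2 ^ k * 2 * N0 = 2 * (2 ^ k * N0) := by ring
        omega) hmX'
      have hmN' : (N0 : ℝ) ≤ m := by exact_mod_cast hmN.le
      have hlm : Real.log N0 ≤ Real.log m := Real.log_le_log (by linarith) hmN'
      have hlmn : Real.log m ≤ ℓ := Real.log_le_log (by linarith) hmn
      have hlm0 : 0 < Real.log m := by linarith
      have h6 : c * 3 ≤ ε₁ * Real.log m := by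
        have h7 : 6 * c / ε₁ ≤ ℓ := by linarith
        rw [div_le_iff₀ he0] at h7
        have h8 : ε₁ * (ℓ / 2) ≤ ε₁ * Real.log m :=
          mul_le_mul_of_nonneg_left (hlog0'.trans hlm) he0.le
        linarith
      exact pt3 (QS_nonneg P m m) h1 hlmn hlm0 he0 he1 (by linarith) hmn hδ2 (by linarith) hc0.le h6
  -- sum over the primes `q = n - m`
  have hsum : |∑ m ∈ Icc 1 n, pv ((n : ℤ) - m) * (QS P m m * ℓ - δ * m)| * ℓ ≤ 9 * ε₁ * n ^ 2 := by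
    have h1 : |∑ m ∈ Icc 1 n, pv ((n : ℤ) - m) * (QS P m m * ℓ - δ * m)| ≤
        ∑ m ∈ Icc 1 n, (pv ((n : ℤ) - m) * (4 * ε₁ * n) + if m ∈ X then 4 * (n : ℝ) else 0) := by
      refine (abs_sum_le_sum_abs _ _).trans (sum_le_sum fun m hm => ?_)
      have hp := pv_mem ((n : ℤ) - m)
      rw [abs_mul, abs_of_nonneg hp.1]
      by_cases hmX : m ∈ X
      · rw [if_pos hmX]
        have h2 : pv ((n : ℤ) - m) * |QS P m m * ℓ - δ * m| ≤ 4 * n :=
          (mul_le_of_le_one_left (abs_nonneg _) hp.2).trans (hF1 m hm)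
        have h3 : 0 ≤ pv ((n : ℤ) - m) * (4 * ε₁ * n) := mul_nonneg hp.1 (by positivity)
        linarith
      · rw [if_neg hmX, add_zero]
        exact mul_le_mul_of_nonneg_left (hF2 m hm hmX) hp.1
    have h2 : ∑ m ∈ Icc 1 n, (pv ((n : ℤ) - m) * (4 * ε₁ * n) + if m ∈ X then 4 * (n : ℝ) else 0) ≤
        (Nat.primeCounting (n - 1) : ℝ) * (4 * ε₁ * n) + X.card * (4 * n) := by
      rw [sum_add_distrib, ← sum_mul, sum_pv_sub n 1 le_rfl (by omega)]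
      gcongr
      rw [← sum_filter, sum_const, nsmul_eq_mul]
      apply mul_le_mul_of_nonneg_right _ (by positivity)
      exact_mod_cast card_le_card (fun m hm => (mem_filter.1 hm).2)
    have h3 := (abs_le.1 (hpi (n - 1) (by omega))).2
    have h4 : (Nat.primeCounting (n - 1) : ℝ) * ℓ ≤ 2 * n := by
      rw [Nat.cast_sub (by omega : 1 ≤ n)] at h3
      push_cast at h3
      have h7 : ε₁ * n ≤ 1 * n := mul_le_mul_of_nonneg_right he1 hn0.le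
      linarith
    calc _ ≤ ((Nat.primeCounting (n - 1) : ℝ) * (4 * ε₁ * n) + X.card * (4 * n)) * ℓ :=
          mul_le_mul_of_nonneg_right (h1.trans h2) hℓ0.le
      _ = ((Nat.primeCounting (n - 1) : ℝ) * ℓ) * (4 * ε₁ * n) + (X.card * ℓ) * (4 * n) := by ring
      _ ≤ (2 * n) * (4 * ε₁ * n) + (ε₁ / 4 * n) * (4 * n) := by gcongr
      _ = _ := by ring
  have hW : |(∑ m ∈ Icc 1 n, pv ((n : ℤ) - m) * m) * ℓ - n ^ 2 / 2| ≤ 2 * ε₁ * n ^ 2 := by
    rw [wsum, sum_mul]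
    have h1 : ∑ i ∈ range n, (i : ℝ) = n ^ 2 / 2 - n / 2 := by
      have := Finset.sum_range_id_mul_two n
      have h2 : (∑ i ∈ range n, (i : ℝ)) * 2 = n * ((n : ℝ) - 1) := by
        have h3 : ((∑ i ∈ range n, i : ℕ) : ℝ) * 2 = ((n * (n - 1) : ℕ) : ℝ) := by exact_mod_cast this
        push_cast at h3
        rw [h3, Nat.cast_sub (by omega : 1 ≤ n)]
        push_cast; ring
      nlinarith
    have h2 : |∑ i ∈ range n, (Nat.primeCounting i : ℝ) * ℓ - ∑ i ∈ range n, (i : ℝ)| ≤ n * (ε₁ * n) := by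
      rw [← sum_sub_distrib]
      refine (abs_sum_le_sum_abs _ _).trans ?_
      calc ∑ i ∈ range n, |(Nat.primeCounting i : ℝ) * ℓ - i| ≤ ∑ i ∈ range n, (ε₁ * n) := by
            apply sum_le_sum
            intro i hi
            rw [mem_range] at hi
            exact hpi i (by omega)
        _ = _ := by rw [sum_const, card_range, nsmul_eq_mul]
    rw [h1] at h2
    have h2' := abs_le.1 h2
    have h3 : (n : ℝ) / 2 ≤ ε₁ * n ^ 2 := by
      have h4 : 1 ≤ ε₁ * n := by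
        rw [div_le_iff₀ he0] at hnε; linarith
      nlinarith
    rw [abs_le]
    constructor <;> nlinarith
  have hid : TT3 P n * ℓ ^ 2 - δ * n ^ 2 / 2 =
      (∑ m ∈ Icc 1 n, pv ((n : ℤ) - m) * (QS P m m * ℓ - δ * m)) * ℓ +
        δ * ((∑ m ∈ Icc 1 n, pv ((n : ℤ) - m) * m) * ℓ - n ^ 2 / 2) := by
    have h1 : ∑ m ∈ Icc 1 n, pv ((n : ℤ) - m) * (QS P m m * ℓ - δ * m) =
        TT3 P n * ℓ - δ * ∑ m ∈ Icc 1 n, pv ((n : ℤ) - m) * m := by
      unfold TT3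
      rw [sum_mul, mul_sum, ← sum_sub_distrib]
      apply sum_congr rfl
      intro m _; ring
    rw [h1]; ring
  rw [hid]
  refine (abs_add_le _ _).trans ?_
  rw [abs_mul, abs_of_pos hℓ0, abs_mul]
  have h8 : |δ| * |(∑ m ∈ Icc 1 n, pv ((n : ℤ) - m) * m) * ℓ - n ^ 2 / 2| ≤ 2 * (2 * ε₁ * n ^ 2) :=
    mul_le_mul hδ2 hW (abs_nonneg _) (by norm_num)
  have h9 : ε₁ * (n : ℝ) ^ 2 ≤ ε / 16 * n ^ 2 := by gcongr
  have h10 : 0 ≤ ε * (n : ℝ) ^ 2 := by positivity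
  nlinarith

end Pool.Agent.TH204.CP
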