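import Mathlib
import Pool.Agent.H33.G.R_seed8.TH204.CP.Collatz
import Pool.Agent.H33.G.R_seed8.TH204.CP.Ternary

/-! Shifted primes coalesce with all their affine neighbours; invariant sets along the primes. -/

set_option autoImplicit false

namespace Pool.Agent.TH204.CP
open Finset Filter Topology Pool.Agent.H499R2.CO Pool.Agent.W38.CR Pool.Agent.W38.AF

/-- `s x` has merged with all its affine neighbours -/
def Wk (s : ℤ) (x : ℕ) : Prop := ∃ t : ℕ, 4 ^ t ≤ x ∧ ∀ a a' b b' : ℕ,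
  (a : ℝ) ≤ kp x → (a' : ℝ) ≤ kp x → (b : ℝ) ≤ kp x → (b' : ℝ) ≤ kp x → ∀ m : ℤ,
  |((2 ^ a * 3 ^ b * m - 2 ^ a' * 3 ^ b' * (s * x) : ℤ) : ℝ)| ≤ Real.exp (kp x) →
  (Tz 1)^[t + a'] m = (Tz 1)^[t + a] (s * x)

lemma lamL (N : ℕ) (h0 : 0 ≤ lam N) : Real.exp (lam N) ≤ (⌈Real.exp (lam N)⌉₊ : ℝ) ∧
    (⌈Real.exp (lam N)⌉₊ : ℝ) ≤ 2 * Real.exp (lam N) := by
  constructor
  · exact Nat.le_ceil _
  · have h1 := Nat.ceil_lt_add_one (Real.exp_pos (lam N)).le
    have h2 : 1 ≤ Real.exp (lam N) := Real.one_le_exp h0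
    linarith

lemma lam_nonneg {N : ℕ} (h : Real.log N ^ 0 + 1 ≤ Real.exp (lam N)) : 0 ≤ lam N := by
  rw [pow_zero] at h
  have : Real.exp 0 ≤ Real.exp (lam N) := by rw [Real.exp_zero]; linarith
  exact Real.exp_le_exp.1 this

lemma near_Wk {s : ℤ} (hs : s = 1 ∨ s = -1) {N n y L : ℕ} (h0 : 0 ≤ lam N)
    (hL : (L : ℝ) ≤ 2 * Real.exp (lam N)) (hk : 3 * lam N + 10 ≤ kap n) (hN : Nbr s n)
    (hy1 : n + L ≤ y) (hy2 : y ≤ n + 2 * L) (hky : kp y ≤ lam N) : Wk s y := by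
  obtain ⟨t, ht, g1, g2⟩ := half s N n hk h0 hN
  have hss : |(s : ℝ)| = 1 := by rcases hs with rfl | rfl <;> simp
  have hyn : ((y : ℝ) - n) ≤ 4 * Real.exp (lam N) := by
    have : (y : ℝ) ≤ n + 2 * L := by exact_mod_cast hy2
    linarith
  have hyn0 : (0 : ℝ) ≤ (y : ℝ) - n := by
    have : (n : ℝ) ≤ y := by exact_mod_cast (by omega : n ≤ y)
    linarith
  have he10 : (5 : ℝ) ≤ Real.exp 10 := by
    have := Real.add_one_le_exp (10 : ℝ); linarith
  have hexp : Real.exp (lam N) ≤ Real.exp (3 * lam N) := Real.exp_le_exp.2 (by linarith)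
  have hexp10 : Real.exp (3 * lam N + 10) = Real.exp 10 * Real.exp (3 * lam N) := by
    rw [← Real.exp_add]; congr 1; ring
  have hTy : (Tz 1)^[t] (s * (y : ℤ)) = (Tz 1)^[t] (s * (n : ℤ)) := by
    apply g1
    have e1 : ((s * (y : ℤ) - s * n : ℤ) : ℝ) = s * ((y : ℝ) - n) := by push_cast; ring
    rw [e1, abs_mul, hss, one_mul, abs_of_nonneg hyn0, hexp10]
    have := Real.exp_pos (lam N)
    nlinarith
  refine ⟨t, ht.trans (by omega), fun a a' b b' ha ha' hb hb' m hm => ?_⟩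
  have e1 : (Tz 1)^[t + a] (s * (y : ℤ)) = (Tz 1)^[t + a] (s * (n : ℤ)) := by
    rw [add_comm t a, Function.iterate_add_apply, Function.iterate_add_apply, hTy]
  rw [e1]
  apply g2 a a' b b' (ha.trans hky) (ha'.trans hky) (hb.trans hky) (hb'.trans hky) m
  -- the distance
  have e2 : ((2 ^ a * 3 ^ b * m - 2 ^ a' * 3 ^ b' * (s * n) : ℤ) : ℝ) =
      ((2 ^ a * 3 ^ b * m - 2 ^ a' * 3 ^ b' * (s * y) : ℤ) : ℝ) + s * ((2 ^ a' * 3 ^ b') * ((y : ℝ) - n)) := by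
    push_cast; ring
  rw [e2]
  refine (abs_add_le _ _).trans ?_
  rw [abs_mul, hss, one_mul, abs_of_nonneg (mul_nonneg (by positivity) hyn0)]
  have hpow : (2 : ℝ) ^ a' * 3 ^ b' ≤ Real.exp (2 * lam N) := by
    have h2 : (2 : ℝ) ^ a' = Real.exp (a' * Real.log 2) := by
      rw [mul_comm, Real.exp_mul, Real.exp_log (by norm_num), Real.rpow_natCast]
    have h3 : (3 : ℝ) ^ b' = Real.exp (b' * Real.log 3) := by
      rw [mul_comm, Real.exp_mul, Real.exp_log (by norm_num), Real.rpow_natCast]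
    rw [h2, h3, ← Real.exp_add]
    apply Real.exp_le_exp.2
    have l2 := Real.log_two_lt_d9
    have l3 : Real.log 3 ≤ 1.3 := by
      have h4 : Real.log 3 ≤ Real.log 4 - 1 / 4 := by
        have h5 : Real.log 3 = Real.log 4 + Real.log (3 / 4) := by
          rw [← Real.log_mul (by norm_num) (by norm_num)]; norm_num
        have h6 := Real.log_le_sub_one_of_pos (show (0 : ℝ) < 3 / 4 by norm_num)
        linarith
      have h5 : Real.log 4 = 2 * Real.log 2 := by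
        rw [show (4 : ℝ) = 2 ^ 2 by norm_num, Real.log_pow]; push_cast; ring
      linarith
    have hl0 : 0 ≤ lam N := h0
    have k1 : (a' : ℝ) * Real.log 2 ≤ lam N * 0.6931471808 := by
      apply mul_le_mul (ha'.trans hky) l2.le (Real.log_nonneg (by norm_num)) hl0
    have k2 : (b' : ℝ) * Real.log 3 ≤ lam N * 1.3 := by
      apply mul_le_mul (hb'.trans hky) l3 (Real.log_nonneg (by norm_num)) hl0
    nlinarith
  have hmul : (2 : ℝ) ^ a' * 3 ^ b' * ((y : ℝ) - n) ≤ Real.exp (2 * lam N) * (4 * Real.exp (lam N)) := by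
    apply mul_le_mul hpow hyn hyn0 (Real.exp_pos _).le
  have hmul2 : Real.exp (2 * lam N) * (4 * Real.exp (lam N)) = 4 * Real.exp (3 * lam N) := by
    rw [mul_left_comm, ← Real.exp_add]; congr 2; ring
  have hm' : Real.exp (kp y) ≤ Real.exp (3 * lam N) := Real.exp_le_exp.2 (by linarith)
  rw [hexp10]
  have h3 := Real.exp_pos (3 * lam N)
  calc _ ≤ Real.exp (kp y) + Real.exp (2 * lam N) * (4 * Real.exp (lam N)) := add_le_add hm hmul
    _ ≤ Real.exp (3 * lam N) + 4 * Real.exp (3 * lam N) := by rw [hmul2]; linarith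
    _ = 5 * Real.exp (3 * lam N) := by ring
    _ ≤ _ := by gcongr

open Classical in
/-- COALESCENCE OF SHIFTED PRIMES, uniformly in the shift -/
theorem cpr {s : ℤ} (hs : s = 1 ∨ s = -1) (ε : ℝ) (hε : 0 < ε) : ∀ᶠ N : ℕ in atTop, ∀ b : ℤ, |b| ≤ N →
    (∑ y ∈ (Icc (1 : ℤ) N).filter (fun y => ¬ Wk s y.toNat), pv (y + b)) * Real.log N ≤ ε * N := by
  obtain ⟨η, hη0, hη⟩ := badshift ε hε
  filter_upwards [hη, exc hs η hη0, F1, F2, F3 0, F3 21, F4 η hη0] with N h1 h2 h3 h4 h5 h6 h7 b hb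
  obtain ⟨E, hE1, hE2⟩ := h2
  have h0 := lam_nonneg h5
  obtain ⟨hL1, hL2⟩ := lamL N h0
  set L := ⌈Real.exp (lam N)⌉₊ with hL
  have hlog0 : 0 ≤ Real.log (N : ℝ) := Real.log_natCast_nonneg N
  refine h1 L (by linarith) ?_ E hE1 _ (filter_subset _ _) ?_ b hb
  · exact (mul_le_mul_of_nonneg_right hL2 hlog0).trans h7
  · intro y hy hyL n hn
    rw [mem_filter, mem_Icc] at hy
    rw [mem_Icc] at hn
    by_contra hnE
    apply hy.2
    obtain ⟨n', rfl⟩ : ∃ m : ℕ, n = m := ⟨n.toNat, by omega⟩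
    obtain ⟨y', rfl⟩ : ∃ m : ℕ, y = m := ⟨y.toNat, by omega⟩
    rw [Int.toNat_natCast]
    obtain ⟨g1, g2⟩ := hE2 n' (by omega) (by omega) hnE
    have g3 : N ≤ y' ^ 2 := g1.trans (Nat.pow_le_pow_left (by omega) 2)
    exact near_Wk hs h0 hL2 (h3 n' g1 (by omega)) g2 (by omega) (by omega) (h4 y' g3 (by omega))

end Pool.Agent.TH204.CP
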