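import Mathlib
import Pool.Agent.H33.G.R_seed8.TH204.CP.Collatz2

/-! Invariant sets of the Collatz map and primes: differences, sums, ternary sums. -/

set_option autoImplicit false

namespace Pool.Agent.TH204.CP
open Finset Filter Topology Pool.Agent.H499R2.CO Pool.Agent.W38.CR Pool.Agent.W38.AF

/-- the elements of `S` of sign `s` -/
def PS (s : ℤ) (S : Set ℤ) (x : ℤ) : Prop := s * x ∈ S

lemma cnt_cF (s : ℤ) (S : Set ℤ) (N : ℕ) : cnt (PS s S) N = Pool.Agent.W41.cF s S N := by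
  classical
  rw [← card_AA]
  unfold AA Pool.Agent.W41.cF PS
  rfl

lemma invT {S : Set ℤ} (hS : ∀ x, x ∈ S ↔ Tz 1 x ∈ S) : Pool.Agent.H499R2.ND.Inv 1 S := hS

lemma dens_mem {s : ℤ} (hs : s = 1 ∨ s = -1) {S : Set ℤ} {δ : ℝ} (h : Pool.Agent.H499R2.ND.HD s S δ) :
    0 ≤ δ ∧ δ ≤ 1 := by
  have h1 := Pool.Agent.W41.cF_tendsto hs h
  constructor
  · exact ge_of_tendsto' h1 (fun N => by positivity)
  · refine le_of_tendsto' h1 (fun N => ?_)
    apply div_le_one_of_le₀ _ (Nat.cast_nonneg _)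
    rw [← cnt_cF]
    exact cnt_le _ _

/-- all data at the scale `N` -/
lemma data {s : ℤ} (hs : s = 1 ∨ s = -1) (η : ℝ) (hη : 0 < η) (K : ℕ) : ∀ᶠ N : ℕ in atTop,
    ∃ (E : Finset ℤ) (L : ℕ), (E.card : ℝ) ≤ η * N ∧ Real.log N ^ K ≤ L ∧ (L : ℝ) * Real.log N ≤ η * N ∧
      (∀ S : Set ℤ, (∀ x, x ∈ S ↔ Tz 1 x ∈ S) → ∀ n ∈ Icc (1 : ℤ) N, n ∉ E →
        ∀ h ∈ Icc (-(3 * L : ℤ)) (3 * L), PS s S (n + h) ↔ PS s S n) ∧
      ∀ S : Set ℤ, (∀ x, x ∈ S ↔ Tz 1 x ∈ S) → ∀ δ : ℝ, Pool.Agent.H499R2.ND.HD s S δ →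
        ∀ m : ℕ, m ≤ N → |cnt (PS s S) m - δ * m| ≤ η * N := by
  obtain ⟨N0, hN0⟩ := Pool.Agent.W41.unif hs hη
  filter_upwards [locS hs η hη, F3 0, F3 K, F4 η hη,
    tendsto_natCast_atTop_atTop.eventually_ge_atTop ((N0 : ℝ) * 2 / η)] with N h1 h2 h3 h4 h5
  obtain ⟨E, hE1, hE2⟩ := h1
  have h0 := lam_nonneg h2
  obtain ⟨hL1, hL2⟩ := lamL N h0
  have hlog0 : 0 ≤ Real.log (N : ℝ) := Real.log_natCast_nonneg N
  refine ⟨E, ⌈Real.exp (lam N)⌉₊, hE1, by linarith, (mul_le_mul_of_nonneg_right hL2 hlog0).trans h4,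
    fun S hS n hn hnE h hh => hE2 _ hL2 S hS n hn hnE h hh, fun S hS δ hδ m hm => ?_⟩
  have hmN : (m : ℝ) ≤ N := by exact_mod_cast hm
  have hm0 : (0 : ℝ) ≤ m := Nat.cast_nonneg _
  rcases le_or_gt N0 m with hc | hc
  · rw [cnt_cF]
    refine (hN0 S (invT hS) δ hδ m hc).trans ?_
    exact mul_le_mul_of_nonneg_left hmN hη.le
  · have hc' : (m : ℝ) ≤ N0 := by exact_mod_cast hc.le
    rw [div_le_iff₀ hη] at h5
    obtain ⟨d0, d1⟩ := dens_mem hs hδ
    have c0 := cnt_nonneg (PS s S) m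
    have c1 := cnt_le (PS s S) m
    have hδm : 0 ≤ δ * m := mul_nonneg d0 hm0
    have hδm' : δ * m ≤ 1 * m := mul_le_mul_of_nonneg_right d1 hm0
    rw [abs_le]
    constructor <;> linarith

/-- DIFFERENCES: `p = x + b` -/
theorem diffs {s : ℤ} (hs : s = 1 ∨ s = -1) (C : ℕ) (ε : ℝ) (hε : 0 < ε) : ∀ᶠ N : ℕ in atTop,
    ∀ S : Set ℤ, (∀ x, x ∈ S ↔ Tz 1 x ∈ S) → ∀ δ : ℝ, Pool.Agent.H499R2.ND.HD s S δ →
    ∃ X : Finset ℕ, X ⊆ Icc 1 N ∧ (X.card : ℝ) * Real.log N ^ C ≤ N ∧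
      ∀ b ∈ Icc 1 N, b ∉ X → |QD (PS s S) b N * Real.log N - δ * N| ≤ ε * N := by
  obtain ⟨K, η, hη0, h⟩ := core3 C (ε / 2) (by positivity)
  filter_upwards [h, data hs (min η (ε / 2)) (lt_min hη0 (by positivity)) K] with N h1 h2 S hS δ hδ
  obtain ⟨E, L, hE, hL1, hL2, hloc, hden⟩ := h2
  have hN0 : (0 : ℝ) ≤ N := Nat.cast_nonneg _
  have hm1 : min η (ε / 2) * (N : ℝ) ≤ η * N := mul_le_mul_of_nonneg_right (min_le_left _ _) hN0
  have hm2 : min η (ε / 2) * (N : ℝ) ≤ ε / 2 * N := mul_le_mul_of_nonneg_right (min_le_right _ _) hN0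
  obtain ⟨⟨X, hX1, hX2, hX3⟩, _⟩ := h1 L hL1 (hL2.trans hm1) (PS s S) E (hE.trans hm1)
    (fun n hn hnE j hj => hloc S hS n hn hnE j (by rw [mem_Icc] at hj ⊢; omega))
  refine ⟨X, hX1, hX2, fun b hb hbX => ?_⟩
  have g1 := abs_le.1 (hX3 b hb hbX)
  have g2 := abs_le.1 ((hden S hS δ hδ N le_rfl).trans hm2)
  rw [abs_le]
  constructor <;> linarith

/-- SUMS: `n = p + x` -/
theorem sumsS {s : ℤ} (hs : s = 1 ∨ s = -1) (C : ℕ) (ε : ℝ) (hε : 0 < ε) : ∀ᶠ N : ℕ in atTop,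
    ∀ S : Set ℤ, (∀ x, x ∈ S ↔ Tz 1 x ∈ S) → ∀ δ : ℝ, Pool.Agent.H499R2.ND.HD s S δ →
    ∃ X : Finset ℕ, X ⊆ Ioc N (2 * N) ∧ (X.card : ℝ) * Real.log N ^ C ≤ N ∧
      ∀ n ∈ Ioc N (2 * N), n ∉ X → |QS (PS s S) n n * Real.log n - δ * n| ≤ ε * n := by
  obtain ⟨K, η, hη0, h⟩ := sums C ε hε
  have ht : Tendsto (fun N : ℕ => 2 * N) atTop atTop :=
    tendsto_id.const_mul_atTop' (by norm_num)
  filter_upwards [h, ht.eventually (data hs (η / 2) (by positivity) K),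
    eventually_ge_atTop 1] with N h1 h2 hN1 S hS δ hδ
  obtain ⟨E, L, hE, hL1, hL2, hloc, hden⟩ := h2
  have hNr : (1 : ℝ) ≤ N := by exact_mod_cast hN1
  have hlog : Real.log (N : ℝ) ≤ Real.log ((2 * N : ℕ) : ℝ) := by
    apply Real.log_le_log (by linarith)
    push_cast; linarith
  have hlog0 : 0 ≤ Real.log (N : ℝ) := Real.log_natCast_nonneg N
  have e2 : η / 2 * ((2 * N : ℕ) : ℝ) = η * N := by push_cast; ring
  rw [e2] at hE hL2
  refine h1 L ((pow_le_pow_left₀ hlog0 hlog K).trans hL1)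
    ((mul_le_mul_of_nonneg_left hlog (Nat.cast_nonneg _)).trans hL2) (PS s S) E hE ?_ δ ?_
  · intro n hn hnE j hj
    exact hloc S hS n hn hnE j (by rw [mem_Icc] at hj ⊢; omega)
  · intro M hM1 hM2
    refine (hden S hS δ hδ M hM2).trans ?_
    rw [e2]
    apply mul_le_mul_of_nonneg_left _ hη0.le
    exact_mod_cast hM1

/-- TERNARY SUMS: `n = p + q + x` -/
theorem ternS {s : ℤ} (hs : s = 1 ∨ s = -1) (ε : ℝ) (hε : 0 < ε) : ∀ᶠ n : ℕ in atTop,
    ∀ S : Set ℤ, (∀ x, x ∈ S ↔ Tz 1 x ∈ S) → ∀ δ : ℝ, Pool.Agent.H499R2.ND.HD s S δ →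
    |TT3 (PS s S) n * Real.log n ^ 2 - δ * n ^ 2 / 2| ≤ ε * n ^ 2 := by
  obtain ⟨K, η, hη0, h⟩ := ternary ε hε
  set η' : ℝ := min (η / 2) (η ^ 2 / 2) with hη'
  have hη'0 : 0 < η' := lt_min (by positivity) (by positivity)
  have ht : Tendsto (fun N : ℕ => 2 * N) atTop atTop :=
    tendsto_id.const_mul_atTop' (by norm_num)
  filter_upwards [h, ht.eventually (data hs η' hη'0 K),
    eventually_ge_atTop 1] with N h1 h2 hN1 S hS δ hδ
  obtain ⟨E, L, hE, hL1, hL2, hloc, hden⟩ := h2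
  have hNr : (1 : ℝ) ≤ N := by exact_mod_cast hN1
  have hlog : Real.log (N : ℝ) ≤ Real.log ((2 * N : ℕ) : ℝ) := by
    apply Real.log_le_log (by linarith)
    push_cast; linarith
  have hlog0 : 0 ≤ Real.log (N : ℝ) := Real.log_natCast_nonneg N
  have e2 : η' * ((2 * N : ℕ) : ℝ) ≤ η * N := by
    push_cast
    have := min_le_left (η / 2) (η ^ 2 / 2)
    calc η' * (2 * (N : ℝ)) ≤ (η / 2) * (2 * N) := by gcongr
      _ = _ := by ring
  have e3 : η' * ((2 * N : ℕ) : ℝ) ≤ η * (η * N) := by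
    push_cast
    have := min_le_right (η / 2) (η ^ 2 / 2)
    calc η' * (2 * (N : ℝ)) ≤ (η ^ 2 / 2) * (2 * N) := by gcongr
      _ = _ := by ring
  refine h1 L ((pow_le_pow_left₀ hlog0 hlog K).trans hL1)
    ((mul_le_mul_of_nonneg_left hlog (Nat.cast_nonneg _)).trans (hL2.trans e2)) (PS s S) E
    (hE.trans e2) ?_ δ ?_
  · intro n hn hnE j hj
    exact hloc S hS n hn hnE j (by rw [mem_Icc] at hj ⊢; omega)
  · intro M hM1 hM2
    refine (hden S hS δ hδ M hM2).trans (e3.trans ?_)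
    exact mul_le_mul_of_nonneg_left hM1 hη0.le

/-- UPPER BOUND, all shifts -/
theorem upperS {s : ℤ} (hs : s = 1 ∨ s = -1) (ε : ℝ) (hε : 0 < ε) : ∀ᶠ N : ℕ in atTop,
    ∀ S : Set ℤ, (∀ x, x ∈ S ↔ Tz 1 x ∈ S) → ∀ δ : ℝ, Pool.Agent.H499R2.ND.HD s S δ →
    ∀ b : ℤ, |b| ≤ N → QD (PS s S) b N * Real.log N ≤ (4 * δ + ε) * N := by
  obtain ⟨η, hη0, h⟩ := upper (ε / 2) (by positivity)
  filter_upwards [h, data hs (min η (ε / 8)) (lt_min hη0 (by positivity)) 21] with N h1 h2 S hS δ hδ b hb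
  obtain ⟨E, L, hE, hL1, hL2, hloc, hden⟩ := h2
  have hN0 : (0 : ℝ) ≤ N := Nat.cast_nonneg _
  have hm1 : min η (ε / 8) * (N : ℝ) ≤ η * N := mul_le_mul_of_nonneg_right (min_le_left _ _) hN0
  have hm2 : min η (ε / 8) * (N : ℝ) ≤ ε / 8 * N := mul_le_mul_of_nonneg_right (min_le_right _ _) hN0
  have g1 := h1 L hL1 (hL2.trans hm1) (PS s S) E (hE.trans hm1)
    (fun n hn hnE j hj => hloc S hS n hn hnE j (by rw [mem_Icc] at hj ⊢; omega)) b hb
  have g2 := abs_le.1 ((hden S hS δ hδ N le_rfl).trans hm2)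
  linarith

/-- reversed differences: `p = x - b` -/
theorem diffsB {s : ℤ} (hs : s = 1 ∨ s = -1) (C : ℕ) (ε : ℝ) (hε : 0 < ε) : ∀ᶠ N : ℕ in atTop,
    ∀ S : Set ℤ, (∀ x, x ∈ S ↔ Tz 1 x ∈ S) → ∀ δ : ℝ, Pool.Agent.H499R2.ND.HD s S δ →
    ∃ X : Finset ℕ, X ⊆ range N ∧ (X.card : ℝ) * Real.log N ^ C ≤ N ∧
      ∀ b ∈ range N, b ∉ X →
        |QD (PS s S) (-(b : ℤ)) (2 * N - 1) * Real.log N - δ * (2 * N - b)| ≤ ε * N := by
  classical
  obtain ⟨K, η, hη0, h⟩ := sums C (ε / 8) (by positivity)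
  set η' : ℝ := min (η / 8) 1 with hη'
  have hη'0 : 0 < η' := lt_min (by positivity) one_pos
  have hη'1 : η' ≤ η / 8 := min_le_left _ _
  have ht : Tendsto (fun N : ℕ => 2 * N) atTop atTop :=
    tendsto_id.const_mul_atTop' (by norm_num)
  filter_upwards [h, ht.eventually (data hs η' hη'0 K), pi_unif 1 one_pos,
    eventually_ge_atTop 1, tendsto_natCast_atTop_atTop.eventually_ge_atTop (2 / η),
    Pool.Agent.W301.SS.ev_L (16 / ε + 1)] with N h1 h2 hpi hN1 hNη hNε S hS δ hδ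
  obtain ⟨E, L, hE, hL1, hL2, hloc, hden⟩ := h2
  have hNr : (1 : ℝ) ≤ N := by exact_mod_cast hN1
  have hN0 : (0 : ℝ) < N := by linarith
  have hlog : Real.log (N : ℝ) ≤ Real.log ((2 * N : ℕ) : ℝ) := by
    apply Real.log_le_log (by linarith)
    push_cast; linarith
  have hlog0 : 0 ≤ Real.log (N : ℝ) := Real.log_natCast_nonneg N
  have e2 : η' * ((2 * N : ℕ) : ℝ) ≤ η / 4 * N := by
    push_cast
    calc η' * (2 * (N : ℝ)) ≤ (η / 8) * (2 * N) := by gcongr
      _ = _ := by ring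
  have e3 : η / 4 * (N : ℝ) ≤ η * N := by nlinarith
  set P' : ℤ → Prop := fun z => PS s S (2 * (N : ℤ) - z) with hP'
  set E' : Finset ℤ := insert (2 * (N : ℤ)) (E.image (fun z => 2 * (N : ℤ) - z)) with hE'
  have hE'c : (E'.card : ℝ) ≤ η * N := by
    have c1 : E'.card ≤ E.card + 1 := (card_insert_le _ _).trans (by
      have := card_image_le (s := E) (f := fun z => 2 * (N : ℤ) - z)
      omega)
    have c2 : (E'.card : ℝ) ≤ E.card + 1 := by exact_mod_cast c1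
    rw [div_le_iff₀ hη0] at hNη
    linarith
  have hcnt : ∀ M : ℕ, M < 2 * N → cnt P' M = cnt (PS s S) (2 * N - 1) - cnt (PS s S) (2 * N - M - 1) := by
    intro M hM
    unfold cnt
    rw [eq_sub_iff_add_eq]
    have e4 : ∑ x ∈ Icc (1 : ℤ) M, ind P' x = ∑ x ∈ Icc (2 * (N : ℤ) - M) (2 * N - 1), ind (PS s S) x := by
      apply sum_bij (fun (x : ℤ) _ => 2 * (N : ℤ) - x)
      · intro x hx
        rw [mem_Icc] at hx ⊢; omega
      · intro x _ y _ h; omega
      · intro y hy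
        rw [mem_Icc] at hy
        exact ⟨2 * (N : ℤ) - y, by rw [mem_Icc]; omega, by ring⟩
      · intro x _; rfl
    rw [e4, add_comm, ← sum_union]
    · apply sum_congr _ (fun _ _ => rfl)
      ext x
      rw [mem_union, mem_Icc, mem_Icc, mem_Icc]; omega
    · rw [disjoint_left]
      intro x h1 h2
      rw [mem_Icc] at h1 h2; omega
  obtain ⟨d0, d1⟩ := dens_mem hs hδ
  have hden' : ∀ M : ℕ, N ≤ M → M ≤ 2 * N → |cnt P' M - δ * M| ≤ η * M := by
    intro M hM1 hM2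
    have hM1r : (N : ℝ) ≤ M := by exact_mod_cast hM1
    have hMη : η / 2 * N + 1 ≤ η * M := by
      rw [div_le_iff₀ hη0] at hNη
      nlinarith
    have key : ∀ M : ℕ, N ≤ M → M < 2 * N → |cnt P' M - δ * M| ≤ η / 2 * N := by
      intro M hM1 hM2
      rw [hcnt M hM2]
      have g1 := abs_le.1 ((hden S hS δ hδ (2 * N - 1) (by omega)).trans e2)
      have g2 := abs_le.1 ((hden S hS δ hδ (2 * N - M - 1) (by omega)).trans e2)
      have c1 : ((2 * N - 1 : ℕ) : ℝ) = 2 * N - 1 := by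
        rw [Nat.cast_sub (by omega)]; push_cast; ring
      have c2 : ((2 * N - M - 1 : ℕ) : ℝ) = 2 * N - M - 1 := by
        rw [Nat.cast_sub (by omega), Nat.cast_sub (by omega)]; push_cast; ring
      rw [c1] at g1
      rw [c2] at g2
      rw [abs_le]
      constructor <;> nlinarith
    rcases Nat.lt_or_ge M (2 * N) with hc | hc
    · exact (key M hM1 hc).trans (by linarith)
    · have hM : M = 2 * N := by omega
      subst hM
      have g := abs_le.1 (key (2 * N - 1) (by omega) (by omega))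
      have c1 : ((2 * N - 1 : ℕ) : ℝ) = 2 * N - 1 := by
        rw [Nat.cast_sub (by omega)]; push_cast; ring
      rw [c1] at g
      have hstep : cnt P' (2 * N) = cnt P' (2 * N - 1) + ind P' (2 * N) := by
        unfold cnt
        have e5 : Icc (1 : ℤ) ((2 * N : ℕ) : ℤ) = insert (2 * (N : ℤ)) (Icc (1 : ℤ) ((2 * N - 1 : ℕ) : ℤ)) := by
          ext x
          rw [mem_insert, mem_Icc, mem_Icc]; omega
        rw [e5, sum_insert (by rw [mem_Icc]; omega), add_comm]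
      have hi := ind_mem P' (2 * N)
      rw [hstep]
      push_cast at hMη ⊢
      rw [abs_le]
      constructor <;> nlinarith
  obtain ⟨X, hX1, hX2, hX3⟩ := h1 L ((pow_le_pow_left₀ hlog0 hlog K).trans hL1)
    ((mul_le_mul_of_nonneg_left hlog (Nat.cast_nonneg _)).trans (hL2.trans (e2.trans e3))) P' E' hE'c
    (by
      intro n hn hnE j hj
      rw [mem_Icc] at hn hj
      rw [hE', mem_insert, not_or] at hnE
      have hnE2 : 2 * (N : ℤ) - n ∉ E := by
        intro hh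
        exact hnE.2 (Finset.mem_image.2 ⟨2 * (N : ℤ) - n, hh, by ring⟩)
      have hne := hnE.1
      have g1 := hloc S hS (2 * (N : ℤ) - n) (by rw [mem_Icc]; push_cast; omega) hnE2 (-j)
        (by rw [mem_Icc]; omega)
      rw [hP']
      simp only
      rw [show 2 * (N : ℤ) - (n + j) = 2 * (N : ℤ) - n + -j by ring]
      exact g1) δ hden'
  refine ⟨X.image (fun n => 2 * N - n), ?_, ?_, ?_⟩
  · intro b hb
    obtain ⟨n, hn, rfl⟩ := Finset.mem_image.1 hb
    have := hX1 hn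
    rw [mem_Ioc] at this
    rw [mem_range]; omega
  · refine le_trans ?_ hX2
    apply mul_le_mul_of_nonneg_right _ (by positivity)
    exact_mod_cast card_image_le (s := X) (f := fun n => 2 * N - n)
  · intro b hb hbX
    rw [mem_range] at hb
    have hn : 2 * N - b ∉ X := by
      intro hh
      exact hbX (Finset.mem_image.2 ⟨2 * N - b, hh, by omega⟩)
    have g := hX3 (2 * N - b) (by rw [mem_Ioc]; omega) hn
    have hbr : (b : ℝ) ≤ N := by exact_mod_cast hb.le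
    have hb0 : (0 : ℝ) ≤ b := Nat.cast_nonneg _
    have hcast : ((2 * N - b : ℕ) : ℝ) = 2 * N - b := by
      rw [Nat.cast_sub (by omega)]; push_cast; ring
    have hQ : QS P' ((2 * N - b : ℕ) : ℤ) (2 * N - b) = QD (PS s S) (-(b : ℤ)) (2 * N - 1) := by
      unfold QS QD
      have e5 : ∑ x ∈ Icc (1 : ℤ) ((2 * N - b : ℕ) : ℤ), ind P' x * pv (((2 * N - b : ℕ) : ℤ) - x) =
          ∑ x ∈ Icc (b : ℤ) (2 * N - 1), ind (PS s S) x * pv (x + -(b : ℤ)) := by
        apply sum_bij (fun (x : ℤ) _ => 2 * (N : ℤ) - x)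
        · intro x hx
          rw [mem_Icc] at hx ⊢; omega
        · intro x _ y _ h; omega
        · intro y hy
          rw [mem_Icc] at hy
          exact ⟨2 * (N : ℤ) - y, by rw [mem_Icc]; omega, by ring⟩
        · intro x hx
          rw [mem_Icc] at hx
          have e6 : ((2 * N - b : ℕ) : ℤ) - x = 2 * (N : ℤ) - x + -(b : ℤ) := by omega
          rw [e6]
          rfl
      rw [e5]
      have e7 : ∀ x : ℤ, x ≤ b → ind (PS s S) x * pv (x + -(b : ℤ)) = 0 := by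
        intro x hx
        have : pv (x + -(b : ℤ)) = 0 := by
          unfold pv
          have e8 : (x + -(b : ℤ)).toNat = 0 := by omega
          rw [e8, if_neg (by norm_num)]
        rw [this, mul_zero]
      have e9 : ∑ x ∈ Icc (b : ℤ) (2 * N - 1), ind (PS s S) x * pv (x + -(b : ℤ)) =
          ∑ x ∈ Icc ((b : ℤ) + 1) (2 * N - 1), ind (PS s S) x * pv (x + -(b : ℤ)) := by
        symm
        apply sum_subset
        · intro x hx
          rw [mem_Icc] at hx ⊢; omega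
        · intro x hx hx'
          rw [mem_Icc] at hx hx'
          exact e7 x (by omega)
      have e10 : ∑ x ∈ Icc (1 : ℤ) ((2 * N - 1 : ℕ) : ℤ), ind (PS s S) x * pv (x + -(b : ℤ)) =
          ∑ x ∈ Icc ((b : ℤ) + 1) (2 * N - 1), ind (PS s S) x * pv (x + -(b : ℤ)) := by
        symm
        apply sum_subset
        · intro x hx
          rw [mem_Icc] at hx ⊢; omega
        · intro x hx hx'
          rw [mem_Icc] at hx hx'
          exact e7 x (by omega)
      rw [e9, e10]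
    rw [hQ, hcast] at g
    set Q := QD (PS s S) (-(b : ℤ)) (2 * N - 1) with hQdef
    -- replace `log (2 N - b)` by `log N`
    have hQ0 : 0 ≤ Q := by
      rw [← hQ]; exact QS_nonneg _ _ _
    have hQπ : Q * Real.log N ≤ 3 * N := by
      have g1 : Q ≤ Nat.primeCounting (2 * N - b) := by
        rw [← hQ]; exact QS_le_pi _ _
      have g2 := (abs_le.1 (hpi (2 * N - b) (by omega))).2
      rw [hcast] at g2
      have g3 := mul_le_mul_of_nonneg_right g1 hlog0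
      linarith
    have hlog2 : Real.log (2 * (N : ℝ) - b) ≤ Real.log N + 1 := by
      have h5 : Real.log (2 * (N : ℝ) - b) ≤ Real.log (2 * N) :=
        Real.log_le_log (by linarith) (by linarith)
      rw [Real.log_mul (by norm_num) (by linarith)] at h5
      have := Real.log_two_lt_d9
      linarith
    have hlog3 : Real.log (N : ℝ) ≤ Real.log (2 * (N : ℝ) - b) :=
      Real.log_le_log hN0 (by linarith)
    have hQs : Q ≤ ε / 4 * N := by
      have h6 : 16 / ε ≤ Real.log N := by linarith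
      have h7 : 16 ≤ Real.log N * ε := by rwa [div_le_iff₀ hε] at h6
      have h8 : 0 < 16 / ε := by positivity
      have hl : 0 < Real.log N := by linarith
      have h9 : Real.log N * Q ≤ Real.log N * (ε / 4 * N) := by nlinarith
      exact le_of_mul_le_mul_left h9 hl
    have k1 : Q * Real.log N ≤ Q * Real.log (2 * (N : ℝ) - b) := mul_le_mul_of_nonneg_left hlog3 hQ0
    have k2 : Q * Real.log (2 * (N : ℝ) - b) ≤ Q * Real.log N + Q := by
      calc Q * Real.log (2 * (N : ℝ) - b) ≤ Q * (Real.log N + 1) := mul_le_mul_of_nonneg_left hlog2 hQ0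
        _ = _ := by ring
    have g' := abs_le.1 g
    have k3 : ε / 8 * (2 * (N : ℝ) - b) ≤ ε / 4 * N := by nlinarith
    rw [abs_le]
    constructor <;> nlinarith

end Pool.Agent.TH204.CP
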