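import Mathlib
import Pool.Agent.H33.G.R_seed8.TH204.CP.Collatz3
import Pool.Agent.H33.G.R_seed8.TH204.CP.Count

set_option autoImplicit false

namespace Pool.Agent.TH204.CP
open Filter

theorem cprQ {s : ℤ} (hs : s = 1 ∨ s = -1) (ε : ℝ) (hε : 0 < ε) : ∀ᶠ N : ℕ in atTop, ∀ b : ℤ, |b| ≤ N →
    QD (fun y => ¬ Wk s y.toNat) b N * Real.log N ≤ ε * N := by
  filter_upwards [cpr hs ε hε] with N h b hb
  have h1 := h b hb
  rw [QD_filter]
  convert h1

theorem split_le {A B C : Set ℕ} (hB : B.Finite) (hC : C.Finite) (h : A ⊆ B ∪ C) :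
    A.ncard ≤ B.ncard + C.ncard :=
  (Set.ncard_le_ncard h (hB.union hC)).trans (Set.ncard_union_le _ _)

end Pool.Agent.TH204.CP
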